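import Pool.Agent.H261R3.Pos2

set_option autoImplicit false
set_option maxHeartbeats 400000

/-! Continuity of the velocities. -/

namespace Pool.Agent.H261R3

open Quaternion
open scoped ContDiff

/-- All curves of the family are smooth and their velocities depend continuously on the parameter
and on time, so that the family is continuous in the `C¹` topology as well. -/
def IsC1Family {P : Type} [TopologicalSpace P] (γ : P → ℝ → Sph) : Prop :=
  (∀ s, ContDiff ℝ ∞ (fun t => (γ s t : E3))) ∧
    Continuous (fun x : P × ℝ => deriv (fun t => (γ x.1 t : E3)) x.2)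

noncomputable section

/-- vector part as a continuous linear map -/
def vecL : ℍ[ℝ] →L[ℝ] E3 := LinearMap.toContinuousLinearMap
  { toFun := vec
    map_add' := by intro p q; ext i; fin_cases i <;> simp [vec]
    map_smul' := by intro c q; ext i; fin_cases i <;> simp [vec] }

theorem vecL_apply (q : ℍ[ℝ]) : vecL q = vec q := rfl

/-- conjugation as a continuous linear map -/
def starL : ℍ[ℝ] →L[ℝ] ℍ[ℝ] := LinearMap.toContinuousLinearMap
  { toFun := fun q => star q
    map_add' := by intro p q; exact star_add p q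
    map_smul' := by intro c q; exact Quaternion.star_smul c q }

/-- the quaternion `i` -/
def qi : ℍ[ℝ] := ⟨0, 1, 0, 0⟩

theorem rot_hasDerivAt {q : ℝ → ℍ[ℝ]} {q' : ℍ[ℝ]} {t : ℝ} (h : HasDerivAt q q' t) :
    HasDerivAt (fun t => rot (q t)) (vecL (q' * kk * star (q t) + q t * kk * star q')) t := by
  have h1 : HasDerivAt (fun t => q t * kk) (q' * kk) t := h.mul_const kk
  have h2 : HasDerivAt (fun t => star (q t)) (star q') t :=
    starL.hasFDerivAt.comp_hasDerivAt t h
  have h3 := h1.mul h2
  exact vecL.hasFDerivAt.comp_hasDerivAt t h3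

/-- derivative of `EE` -/
def EEd (τ t : ℝ) : ℍ[ℝ] :=
  (Real.cos (Real.pi / 2 * τ)) • ((-(Real.sin (2 * Real.pi * t) * (2 * Real.pi))) • (1 : ℍ[ℝ]) +
    (Real.cos (2 * Real.pi * t) * (2 * Real.pi)) • kk)

theorem EE_hasDerivAt (τ t : ℝ) : HasDerivAt (fun t => EE τ t) (EEd τ t) t := by
  have e : (fun t => EE τ t) = fun t => (Real.cos (Real.pi / 2 * τ)) •
      ((Real.cos (2 * Real.pi * t)) • (1 : ℍ[ℝ]) + (Real.sin (2 * Real.pi * t)) • kk) +
      (Real.sin (Real.pi / 2 * τ)) • qi := by
    funext t
    ext <;> simp [EE, kk, qi]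
  rw [e]
  have hlin : HasDerivAt (fun t : ℝ => 2 * Real.pi * t) (2 * Real.pi) t := by
    simpa using (hasDerivAt_id t).const_mul (2 * Real.pi)
  have h1 : HasDerivAt (fun t : ℝ => Real.cos (2 * Real.pi * t))
      (-(Real.sin (2 * Real.pi * t) * (2 * Real.pi))) t := by
    have := (Real.hasDerivAt_cos (2 * Real.pi * t)).comp t hlin
    rw [neg_mul] at this
    exact this
  have h2 : HasDerivAt (fun t : ℝ => Real.sin (2 * Real.pi * t))
      (Real.cos (2 * Real.pi * t) * (2 * Real.pi)) t :=
    (Real.hasDerivAt_sin (2 * Real.pi * t)).comp t hlin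
  have h3 := ((h1.smul_const (1 : ℍ[ℝ])).add (h2.smul_const kk)).const_smul
    (Real.cos (Real.pi / 2 * τ))
  have h4 := h3.add_const ((Real.sin (Real.pi / 2 * τ)) • qi)
  exact h4

theorem defm_hasDerivAt (τ : ℝ) (b : Sph) (t : ℝ) :
    HasDerivAt (fun t => (defm τ b t : E3))
      (vecL ((pv b * EEd τ t * star (pv b)) * kk * star (HH τ b t) +
        HH τ b t * kk * star (pv b * EEd τ t * star (pv b)))) t := by
  have h1 : HasDerivAt (fun t => HH τ b t) (pv b * EEd τ t * star (pv b)) t :=
    ((EE_hasDerivAt τ t).const_mul (pv b)).mul_const (star (pv b))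
  exact rot_hasDerivAt h1

theorem EEd_continuous : Continuous (fun p : ℝ × ℝ => EEd p.1 p.2) := by
  unfold EEd
  fun_prop

theorem defm_deriv_continuous :
    Continuous (fun p : (unitInterval × Sph) × ℝ => deriv (fun t => (defm p.1.1 p.1.2 t : E3)) p.2) := by
  have e : (fun p : (unitInterval × Sph) × ℝ => deriv (fun t => (defm p.1.1 p.1.2 t : E3)) p.2) =
      fun p => vecL ((pv p.1.2 * EEd p.1.1 p.2 * star (pv p.1.2)) * kk * star (HH p.1.1 p.1.2 p.2) +
        HH p.1.1 p.1.2 p.2 * kk * star (pv p.1.2 * EEd p.1.1 p.2 * star (pv p.1.2))) := by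
    funext p
    exact (defm_hasDerivAt _ _ _).deriv
  rw [e]
  have h0 : Continuous (fun p : (unitInterval × Sph) × ℝ => (((p.1.1 : ℝ), p.2) : ℝ × ℝ)) := by
    fun_prop
  have h1 : Continuous (fun p : (unitInterval × Sph) × ℝ => EE p.1.1 p.2) := by
    have := EE_continuous.comp h0
    exact this
  have h2 : Continuous (fun p : (unitInterval × Sph) × ℝ => EEd p.1.1 p.2) := by
    have := EEd_continuous.comp h0
    exact this
  have h3 : Continuous (fun p : (unitInterval × Sph) × ℝ => (p.1.2 : E3)) := by fun_prop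
  have h4 : Continuous (fun p : (unitInterval × Sph) × ℝ => pv (p.1.2 : E3)) := by
    have := pv_continuous.comp h3
    exact this
  have h5 : Continuous (fun p : (unitInterval × Sph) × ℝ => HH p.1.1 p.1.2 p.2) := by
    have := (h4.mul h1).mul h4.star
    exact this
  have h6 := (h4.mul h2).mul h4.star
  have h7 := ((h6.mul (continuous_const (y := kk))).mul h5.star).add ((h5.mul (continuous_const (y := kk))).mul h6.star)
  have h8 := vecL.continuous.comp h7
  exact h8

/-- derivative of `gq` -/
def gqd (b : Sph) (t : ℝ) : ℍ[ℝ] :=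
  pv b * ((-(Real.sin (Real.pi * t) * Real.pi)) • (1 : ℍ[ℝ]) +
    (Real.cos (Real.pi * t) * Real.pi) • kk) * star (pv b)

theorem gq_hasDerivAt (b : Sph) (t : ℝ) : HasDerivAt (fun t => gq b t) (gqd b t) t := by
  have e : (fun t => gq b t) = fun t => pv b * ((Real.cos (Real.pi * t)) • (1 : ℍ[ℝ]) +
      (Real.sin (Real.pi * t)) • kk) * star (pv b) := by
    funext t
    rw [gq]
    congr 2
    ext <;> simp [ck, kk]
  rw [e]
  have hlin : HasDerivAt (fun t : ℝ => Real.pi * t) Real.pi t := by
    simpa using (hasDerivAt_id t).const_mul Real.pi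
  have h1 : HasDerivAt (fun t : ℝ => Real.cos (Real.pi * t))
      (-(Real.sin (Real.pi * t) * Real.pi)) t := by
    have := (Real.hasDerivAt_cos (Real.pi * t)).comp t hlin
    rw [neg_mul] at this
    exact this
  have h2 : HasDerivAt (fun t : ℝ => Real.sin (Real.pi * t))
      (Real.cos (Real.pi * t) * Real.pi) t :=
    (Real.hasDerivAt_sin (Real.pi * t)).comp t hlin
  have h3 := (h1.smul_const (1 : ℍ[ℝ])).add (h2.smul_const kk)
  have h4 := (h3.const_mul (pv b)).mul_const (star (pv b))
  exact h4

theorem gam_hasDerivAt (b : Sph) (t : ℝ) :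
    HasDerivAt (fun t => (gam b t : E3))
      (vecL (gqd b t * kk * star (gq b t) + gq b t * kk * star (gqd b t))) t :=
  rot_hasDerivAt (gq_hasDerivAt b t)

theorem gam_deriv_continuous :
    Continuous (fun p : Sph × ℝ => deriv (fun t => (gam p.1 t : E3)) p.2) := by
  have e : (fun p : Sph × ℝ => deriv (fun t => (gam p.1 t : E3)) p.2) =
      fun p => vecL (gqd p.1 p.2 * kk * star (gq p.1 p.2) + gq p.1 p.2 * kk * star (gqd p.1 p.2)) := by
    funext p
    exact (gam_hasDerivAt _ _).deriv
  rw [e]
  have h3 : Continuous (fun p : Sph × ℝ => (p.1 : E3)) := by fun_prop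
  have h4 : Continuous (fun p : Sph × ℝ => pv (p.1 : E3)) := by
    have := pv_continuous.comp h3
    exact this
  have h5 : Continuous (fun p : Sph × ℝ => ((-(Real.sin (Real.pi * p.2) * Real.pi)) • (1 : ℍ[ℝ]) +
    (Real.cos (Real.pi * p.2) * Real.pi) • kk)) := by fun_prop
  have h6 : Continuous (fun p : Sph × ℝ => gqd p.1 p.2) := by
    have := (h4.mul h5).mul h4.star
    exact this
  have h7 := ((h6.mul (continuous_const (y := kk))).mul gq_continuous.star).add
    ((gq_continuous.mul (continuous_const (y := kk))).mul h6.star)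
  have h8 := vecL.continuous.comp h7
  exact h8

theorem γ_C1 : IsC1Family γ := by
  constructor
  · intro s
    obtain ⟨b, rfl⟩ := Quotient.mk_surjective s
    exact gam_smooth b
  · have hq : IsOpenQuotientMap (Prod.map (Quotient.mk antipodal) (id : ℝ → ℝ)) :=
      mk_open.prodMap IsOpenQuotientMap.id
    rw [hq.isQuotientMap.continuous_iff]
    exact gam_deriv_continuous

theorem HD_C1 : IsC1Family (fun x : unitInterval × RP2 => HD x.1 x.2) := by
  constructor
  · rintro ⟨τ, s⟩
    obtain ⟨b, rfl⟩ := Quotient.mk_surjective s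
    exact defm_smooth τ b
  · have hq : IsOpenQuotientMap (Prod.map (Prod.map (id : unitInterval → unitInterval)
        (Quotient.mk antipodal)) (id : ℝ → ℝ)) :=
      (IsOpenQuotientMap.id.prodMap mk_open).prodMap IsOpenQuotientMap.id
    rw [hq.isQuotientMap.continuous_iff]
    exact defm_deriv_continuous

end

end Pool.Agent.H261R3
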