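import Mathlib

/-! Families of closed curves on the round two-sphere parametrised by the projective plane. -/

set_option autoImplicit false

namespace Pool.Agent.H261R3

open scoped ContDiff

/-- Euclidean three-space. -/
abbrev E3 : Type := EuclideanSpace ℝ (Fin 3)

/-- The round unit two-sphere in Euclidean three-space. -/
abbrev Sph : Type := Metric.sphere (0 : E3) 1

/-- The antipodal equivalence relation on the sphere. -/
def antipodal : Setoid Sph where
  r u v := u = v ∨ u = -v
  iseqv :=
    { refl := fun _ => Or.inl rfl
      symm := by
        rintro u v (rfl | rfl)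
        · exact Or.inl rfl
        · exact Or.inr (neg_neg v).symm
      trans := by
        rintro u v w (rfl | rfl) (rfl | rfl)
        · exact Or.inl rfl
        · exact Or.inr rfl
        · exact Or.inr rfl
        · exact Or.inl (neg_neg w) }

/-- The real projective plane: the quotient of the sphere by the antipodal map, with the quotient
topology. -/
abbrev RP2 : Type := Quotient antipodal

/-- `c`, restricted to `[0,1]`, is a closed curve on the sphere: it is piecewise smooth and
`c 0 = c 1`. -/
structure IsClosedCurve (c : ℝ → Sph) : Prop where
  closed : c 0 = c 1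
  smooth : ∃ (n : ℕ) (p : ℕ → ℝ), Monotone p ∧ p 0 = 0 ∧ p n = 1 ∧
    ∀ i < n, ContDiffOn ℝ ∞ (fun t => (c t : E3)) (Set.Icc (p i) (p (i + 1)))

/-- The length of a curve `[0,1] → S²` in the round metric: the integral of its speed. -/
noncomputable def length (c : ℝ → Sph) : ℝ :=
  ∫ t in (0 : ℝ)..1, ‖deriv (fun t => (c t : E3)) t‖

/-- The closed curve traversed `m` times: `t ↦ c (m t mod 1)`. -/
noncomputable def traverse (m : ℕ) (c : ℝ → Sph) : ℝ → Sph := fun t => c (Int.fract (m * t))

/-- A family of closed curves with parameter space `P`, depending continuously on the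
parameter. -/
structure IsFamily {P : Type} [TopologicalSpace P] (γ : P → ℝ → Sph) : Prop where
  curve : ∀ s, IsClosedCurve (γ s)
  continuous : Continuous (fun x : P × unitInterval => γ x.1 x.2)

/-- `H` is a homotopy through closed (merely continuous) curves from the family `γ` to a family of
points. -/
structure IsHomotopyToPoints {P : Type} [TopologicalSpace P] (γ : P → ℝ → Sph)
    (H : unitInterval → P → ℝ → Sph) : Prop where
  continuous : Continuous (fun x : unitInterval × P × unitInterval => H x.1 x.2.1 x.2.2)
  closed : ∀ τ s, H τ s 0 = H τ s 1
  start : ∀ s, ∀ t ∈ Set.Icc (0 : ℝ) 1, H 0 s t = γ s t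
  stop : ∀ s, ∀ t ∈ Set.Icc (0 : ℝ) 1, H 1 s t = H 1 s 0

/-- `H` is a deformation of the family `γ` to a family of points through closed curves of length
less than `L`. -/
structure IsDeformation {P : Type} [TopologicalSpace P] (L : ℝ) (γ : P → ℝ → Sph)
    (H : unitInterval → P → ℝ → Sph) : Prop extends IsHomotopyToPoints γ H where
  curve : ∀ τ s, IsClosedCurve (H τ s)
  short : ∀ τ s, length (H τ s) < L

end Pool.Agent.H261R3
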