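import Mathlib

/-! Lifting homotopies of unit pure quaternions to the unit quaternions. -/

set_option autoImplicit false

namespace Pool.Agent.H261R3

open Quaternion

noncomputable section

/-- the step quaternion: for unit pure quaternions `y, y'` it conjugates `y` to `y'` -/
def Q (y y' : ℍ[ℝ]) : ℍ[ℝ] := (‖1 - y' * y‖⁻¹ : ℝ) • (1 - y' * y)

theorem Q_ne {y y' : ℍ[ℝ]} (hy : y * y = -1) (h : y + y' ≠ 0) : 1 - y' * y ≠ 0 := by
  intro h0
  apply h
  have h1 : y' * y = 1 := (sub_eq_zero.mp h0).symm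
  have h2 : y' * y * y = y := by rw [h1, one_mul]
  rw [mul_assoc, hy, mul_neg, mul_one] at h2
  rw [← h2]; simp

theorem Q_norm {y y' : ℍ[ℝ]} (hy : y * y = -1) (h : y + y' ≠ 0) : ‖Q y y'‖ = 1 := by
  have h1 : ‖1 - y' * y‖ ≠ 0 := norm_ne_zero_iff.mpr (Q_ne hy h)
  rw [Q, norm_smul, norm_inv, norm_norm, inv_mul_cancel₀ h1]

theorem Q_comm {y y' : ℍ[ℝ]} (hy : y * y = -1) (hy' : y' * y' = -1) : Q y y' * y = y' * Q y y' := by
  rw [Q, smul_mul_assoc, mul_smul_comm]
  congr 1
  rw [sub_mul, mul_sub, one_mul, mul_one, mul_assoc, hy, ← mul_assoc, hy']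
  simp [add_comm]

theorem Q_self {y : ℍ[ℝ]} (hy : y * y = -1) : Q y y = 1 := by
  have h2 : (1 : ℍ[ℝ]) - y * y = ((2 : ℝ) : ℍ[ℝ]) := by
    rw [hy, sub_neg_eq_add]
    ext <;> simp <;> norm_num
  rw [Q, h2, Quaternion.norm_coe, Quaternion.smul_coe]
  norm_num

/-- lifting lemma -/
theorem lift {X : Type*} [MetricSpace X] [CompactSpace X] (h : unitInterval × X → ℍ[ℝ])
    (hc : Continuous h) (hsq : ∀ p, h p * h p = -1) :
    ∃ U : unitInterval × X → ℍ[ℝ], Continuous U ∧ (∀ p, ‖U p‖ = 1) ∧ (∀ x, U (0, x) = 1) ∧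
      (∀ τ x, U (τ, x) * h (0, x) = h (τ, x) * U (τ, x)) ∧
      ∀ x x', (∀ τ, h (τ, x) = h (τ, x')) → ∀ τ, U (τ, x) = U (τ, x') := by
  have huc := CompactSpace.uniformContinuous_of_continuous hc
  rw [Metric.uniformContinuous_iff] at huc
  obtain ⟨δ, hδ, hδ'⟩ := huc 2 (by norm_num)
  obtain ⟨n, hn⟩ := exists_nat_one_div_lt hδ
  -- the intermediate times
  let c : ℕ → unitInterval := fun i => Set.projIcc 0 1 zero_le_one ((i : ℝ) / (n + 1))
  have hc0 : c 0 = 0 := by
    apply Subtype.ext
    simp [c, Set.coe_projIcc]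
  have hc1 : c (n + 1) = 1 := by
    apply Subtype.ext
    have : ((n + 1 : ℕ) : ℝ) / ((n : ℝ) + 1) = 1 := by
      push_cast
      exact div_self (by positivity)
    simp only [c, Set.coe_projIcc, this]
    simp
  have hstep : ∀ i (τ : unitInterval), dist (τ * c i) (τ * c (i + 1)) < δ := by
    intro i τ
    have h1 : |((c i : unitInterval) : ℝ) - c (i + 1)| ≤ 1 / ((n : ℝ) + 1) := by
      refine (Set.abs_projIcc_sub_projIcc zero_le_one).trans ?_
      have hinc : (i : ℝ) / (n + 1) - ((i + 1 : ℕ) : ℝ) / (n + 1) = -(1 / (n + 1)) := by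
        push_cast; ring
      rw [hinc, abs_neg, abs_of_nonneg (by positivity)]
    have h2 : dist (τ * c i) (τ * c (i + 1)) = |(τ : ℝ)| * |((c i : unitInterval) : ℝ) - c (i + 1)| := by
      rw [Subtype.dist_eq, Real.dist_eq, ← abs_mul]
      congr 1
      rw [Set.Icc.coe_mul, Set.Icc.coe_mul]
      ring
    rw [h2]
    have h3 : |(τ : ℝ)| ≤ 1 := by
      rw [abs_le]; exact ⟨by linarith [τ.2.1], τ.2.2⟩
    calc |(τ : ℝ)| * |((c i : unitInterval) : ℝ) - c (i + 1)|
        ≤ 1 * (1 / ((n : ℝ) + 1)) := mul_le_mul h3 h1 (abs_nonneg _) zero_le_one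
      _ < δ := by rw [one_mul]; exact hn
  have hnear : ∀ i (τ : unitInterval) (x : X), h (τ * c i, x) + h (τ * c (i + 1), x) ≠ 0 := by
    intro i τ x h0
    have h1 : dist ((τ * c i, x) : unitInterval × X) (τ * c (i + 1), x) < δ := by
      rw [Prod.dist_eq, dist_self]
      exact max_lt (hstep i τ) hδ
    have h2 := hδ' h1
    have h3 : h (τ * c (i + 1), x) = - h (τ * c i, x) := by
      rw [eq_neg_iff_add_eq_zero, add_comm]; exact h0
    rw [dist_eq_norm, h3, sub_neg_eq_add, ← two_smul ℝ, norm_smul] at h2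
    have h4 : ‖h (τ * c i, x)‖ = 1 := by
      have := congrArg norm (hsq (τ * c i, x))
      rw [norm_mul, norm_neg, norm_one] at this
      nlinarith [norm_nonneg (h (τ * c i, x))]
    rw [h4] at h2
    norm_num at h2
  -- the lift
  let U : ℕ → unitInterval × X → ℍ[ℝ] := fun k => Nat.rec (fun _ => 1)
    (fun i u p => Q (h (p.1 * c i, p.2)) (h (p.1 * c (i + 1), p.2)) * u p) k
  have hU0 : ∀ p, U 0 p = 1 := fun _ => rfl
  have hUs : ∀ k p, U (k + 1) p = Q (h (p.1 * c k, p.2)) (h (p.1 * c (k + 1), p.2)) * U k p :=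
    fun _ _ => rfl
  refine ⟨U (n + 1), ?_, ?_, ?_, ?_, ?_⟩
  · have : ∀ k, Continuous (U k) := by
      intro k
      induction k with
      | zero => exact continuous_const
      | succ k ih =>
        have e : U (k + 1) = fun p => Q (h (p.1 * c k, p.2)) (h (p.1 * c (k + 1), p.2)) * U k p :=
          funext (hUs k)
        rw [e]
        refine Continuous.mul ?_ ih
        have h1 : Continuous (fun p : unitInterval × X => h (p.1 * c k, p.2)) :=
          hc.comp ((continuous_fst.mul continuous_const).prodMk continuous_snd)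
        have h2 : Continuous (fun p : unitInterval × X => h (p.1 * c (k + 1), p.2)) :=
          hc.comp ((continuous_fst.mul continuous_const).prodMk continuous_snd)
        have h3 : Continuous (fun p : unitInterval × X =>
            (1 : ℍ[ℝ]) - h (p.1 * c (k + 1), p.2) * h (p.1 * c k, p.2)) :=
          continuous_const.sub (h2.mul h1)
        unfold Q
        refine Continuous.smul (Continuous.inv₀ h3.norm ?_) h3
        intro p
        exact norm_ne_zero_iff.mpr (Q_ne (hsq _) (hnear k p.1 p.2))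
    exact this (n + 1)
  · have : ∀ k p, ‖U k p‖ = 1 := by
      intro k
      induction k with
      | zero => intro p; rw [hU0, norm_one]
      | succ k ih =>
        intro p
        rw [hUs, norm_mul, ih, Q_norm (hsq _) (hnear k p.1 p.2), one_mul]
    exact this (n + 1)
  · intro x
    have : ∀ k, U k (0, x) = 1 := by
      intro k
      induction k with
      | zero => exact hU0 (0, x)
      | succ k ih =>
        rw [hUs, ih, mul_one]
        simp only [zero_mul]
        exact Q_self (hsq (0, x))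
    exact this (n + 1)
  · intro τ x
    have : ∀ k, U k (τ, x) * h (0, x) = h (τ * c k, x) * U k (τ, x) := by
      intro k
      induction k with
      | zero => rw [hU0, hc0, mul_zero, one_mul, mul_one]
      | succ k ih =>
        rw [hUs, mul_assoc, ih, ← mul_assoc, ← mul_assoc]
        congr 1
        exact Q_comm (hsq _) (hsq _)
    have := this (n + 1)
    rwa [hc1, mul_one] at this
  · intro x x' hxx τ
    have : ∀ k, U k (τ, x) = U k (τ, x') := by
      intro k
      induction k with
      | zero => rfl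
      | succ k ih => rw [hUs, hUs, ih, hxx, hxx]
    exact this (n + 1)

end

end Pool.Agent.H261R3
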