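import Pool.Agent.H261R3.Parity

/-! The parity lemma. -/

set_option autoImplicit false
set_option linter.unusedSectionVars false

namespace Pool.Agent.H261R3

open Finsupp
open Pool.Agent.Helper82.BorsukUlam

/-- the labelling data used in the counting argument -/
structure Lab (a : E4 → ℕ) (s : E4 → ZMod 2) (δ : ℝ) (r : ℕ) : Prop where
  compat : ∀ x ∈ Om, ∀ y ∈ Om, dist x y < δ → a x = a y → s x = s y
  mesh : ((5 : ℝ) / 6) ^ r * 2 < δ

variable {a : E4 → ℕ} {s : E4 → ZMod 2} {δ : ℝ} {r : ℕ}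

noncomputable def An (a : E4 → ℕ) (s : E4 → ZMod 2) (r n : ℕ) (c : Chain E4) : ZMod 2 :=
  alc s (sortC a ((sub n)^[r] c))

noncomputable def Wn (a : E4 → ℕ) (s : E4 → ZMod 2) (r n : ℕ) (c : Chain E4) : ZMod 2 :=
  Wc s (sortC a ((sub n)^[r] c))

theorem An_add (n : ℕ) (c d : Chain E4) : An a s r n (c + d) = An a s r n c + An a s r n d := by
  rw [An, add_iter, map_add, map_add]; rfl

theorem Wn_add (n : ℕ) (c d : Chain E4) : Wn a s r n (c + d) = Wn a s r n c + Wn a s r n d := by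
  rw [Wn, add_iter, map_add, map_add]; rfl

theorem An_bd (n : ℕ) (c : Chain E4) : An a s r n (bd c) = Wn a s r (n + 1) c := by
  rw [An, Wn, ← bd_iter, ← bd_sortC, alc_bd]

theorem mesh_le (L : Lab a s δ r) (n : ℕ) (hn : n ≤ 5) : ((n : ℝ) / (n + 1)) ^ r * 2 < δ := by
  refine lt_of_le_of_lt ?_ L.mesh
  have h1 : (n : ℝ) / (n + 1) ≤ 5 / 6 := by
    rw [div_le_div_iff₀ (by positivity) (by norm_num)]
    have : (n : ℝ) ≤ 5 := by exact_mod_cast hn
    linarith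
  have h0 : 0 ≤ (n : ℝ) / (n + 1) := by positivity
  gcongr

theorem small_mem (L : Lab a s δ r) {n : ℕ} (hn : n ≤ 5) {R : Set E4} (hR : R ⊆ Om) {c : Chain E4}
    (hc : c ∈ S (PS n R)) : (sub n)^[r] c ∈ S (Sm n δ R) :=
  iter_mem (D := 2) (by norm_num) (fun x hx y hy => Om_diam x (hR hx) y (hR hy)) (mesh_le L n hn) hc

theorem van (L : Lab a s δ r) {n : ℕ} (hn : n ≤ 5) {R : Set E4} (hR : R ⊆ Om) (A : Finset ℕ)
    (hA : ∀ u ∈ R, a u ∈ A) (hcard : A.card < n) {c : Chain E4} (hc : c ∈ S (PS n R)) :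
    An a s r n c = 0 ∧ Wn a s r n c = 0 := by
  have hm := small_mem L hn hR hc
  have key : ∀ l : List E4, Sm n δ R l →
      W s (l.insertionSort (fun x y => a x ≤ a y)) = 0 ∧
      al s (l.insertionSort (fun x y => a x ≤ a y)) = 0 := by
    rintro l ⟨h1, h2, h3⟩
    have hA' : ∀ u ∈ l.insertionSort (fun x y => a x ≤ a y), a u ∈ A := by
      intro u hu
      rw [List.mem_insertionSort] at hu
      exact hA u (h2 u hu)
    have hs' : ∀ u ∈ l.insertionSort (fun x y => a x ≤ a y),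
        ∀ v ∈ l.insertionSort (fun x y => a x ≤ a y), a u = a v → s u = s v := by
      intro u hu v hv
      rw [List.mem_insertionSort] at hu hv
      exact L.compat u (hR (h2 u hu)) v (hR (h2 v hv)) (h3 u hu v hv)
    have hlen : A.card < (l.insertionSort (fun x y => a x ≤ a y)).length := by
      rw [List.length_insertionSort, h1]; exact hcard
    exact ⟨W_small a s A _ hA' hlen hs' (sort_pairwise a l),
      al_small a s A _ hA' hlen hs' (sort_pairwise a l)⟩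
  constructor
  · refine lin_eq_zero ((alc s).comp (sortC a)) (fun l hl => ?_) hm
    rw [LinearMap.comp_apply, sortC_single, alc_single, (key l hl).2, mul_zero]
  · refine lin_eq_zero ((Wc s).comp (sortC a)) (fun l hl => ?_) hm
    rw [LinearMap.comp_apply, sortC_single, Wc_single, (key l hl).1, mul_zero]

theorem fst_lab (L : Lab a s δ r) {n : ℕ} (hn : n ≤ 5) (hn0 : n ≠ 0) {R : Set E4} (hR : R ⊆ Om)
    (A : Finset ℕ) (hA : ∀ u ∈ R, a u ∈ A) (hcard : A.card ≤ n) (j : ℕ) (hj : j ∈ A)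
    (hmin : ∀ i ∈ A, j ≤ i) (σ : ZMod 2) (hσ : ∀ u ∈ R, a u = j → s u = σ) {c : Chain E4}
    (hc : c ∈ S (PS n R)) : An a s r n c = σ * Wn a s r n c := by
  have hm := small_mem L hn hR hc
  have := lin_eq_zero ((alc s).comp (sortC a) - σ • (Wc s).comp (sortC a)) (fun l hl => ?_) hm
  · rw [LinearMap.sub_apply, LinearMap.smul_apply, LinearMap.comp_apply, LinearMap.comp_apply,
      smul_eq_mul] at this
    exact sub_eq_zero.mp this
  · rw [LinearMap.sub_apply, LinearMap.smul_apply, LinearMap.comp_apply, LinearMap.comp_apply,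
      sortC_single, alc_single, Wc_single, one_mul, one_mul, smul_eq_mul, sub_eq_zero]
    obtain ⟨h1, h2, h3⟩ := hl
    refine al_first a s A j σ _ ?_ ?_ ?_ hj hmin ?_ ?_ (sort_pairwise a l)
    · intro h
      have := congrArg List.length h
      rw [List.length_insertionSort, h1] at this
      exact hn0 this
    · intro u hu
      rw [List.mem_insertionSort] at hu
      exact hA u (h2 u hu)
    · rw [List.length_insertionSort, h1]; exact hcard
    · intro u hu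
      rw [List.mem_insertionSort] at hu
      exact hσ u (h2 u hu)
    · intro u hu v hv
      rw [List.mem_insertionSort] at hu hv
      exact L.compat u (hR (h2 u hu)) v (hR (h2 v hv)) (h3 u hu v hv)

/-- symmetric part -/
theorem sym_lab (L : Lab a s δ r) {n : ℕ} (hn : n ≤ 5) {R : Set E4} (hR : R ⊆ Om)
    (ha : ∀ u ∈ R, a (T u) = a u) (hs : ∀ u ∈ R, s (T u) = s u) {c : Chain E4}
    (hc : c ∈ S (PS n R)) : An a s r n (c + mp T c) = 0 := by
  have hm := small_mem L hn hR hc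
  have h2 : An a s r n (mp T c) = An a s r n c := by
    have := lin_eq_zero ((alc s).comp (sortC a) - ((alc s).comp (sortC a)).comp (mp T))
      (fun l hl => ?_) hm
    · rw [LinearMap.sub_apply, LinearMap.comp_apply, LinearMap.comp_apply, LinearMap.comp_apply,
        mp_iter] at this
      exact (sub_eq_zero.mp this).symm
    · obtain ⟨h1, h2, h3⟩ := hl
      rw [LinearMap.sub_apply, LinearMap.comp_apply, LinearMap.comp_apply, LinearMap.comp_apply,
        mp_single, sortC_single, sortC_single, alc_single, alc_single, one_mul, one_mul, sub_eq_zero]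
      have e1 : (l.map T).insertionSort (fun x y => a x ≤ a y) =
          (l.insertionSort (fun x y => a x ≤ a y)).map T := by
        refine (List.map_insertionSort (r := fun x y => a x ≤ a y) (s := fun x y => a x ≤ a y)
          (fun v => T v) l (fun x hx y hy => ?_)).symm
        rw [ha x (h2 x hx), ha y (h2 y hy)]
      rw [e1, al_map]
      intro u hu
      rw [List.mem_insertionSort] at hu
      exact hs u (h2 u hu)
  rw [An_add, h2]
  exact z2_add_self _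

theorem An_point (x : E4) (n : ℕ) : An a s n 1 (single [x] 1) = s x := by
  have h1 : (sub 1) (single [x] (1 : ZMod 2)) = single [x] 1 := by
    rw [sub_succ_single, one_smul]
    simp only [bdL, map_zero, add_zero]
    simp only [sub, LinearMap.id_coe, id_eq, cone_single, bary]
    simp
  have h2 : (sub 1)^[n] (single [x] (1 : ZMod 2)) = single [x] 1 := by
    induction n with
    | zero => rfl
    | succ n ih => rw [Function.iterate_succ_apply, h1, ih]
  rw [An, h2, sortC_single, alc_single]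
  simp [al, W]

/-! ### the counting argument -/

/-- properties of the labelling which follow from those of the map -/
structure Cond (a : E4 → ℕ) (s : E4 → ZMod 2) : Prop where
  lt4 : ∀ x, a x < 4
  side : ∀ x ∈ Om, (x 2 = 0 ∨ x 2 = 2 ∨ x 3 = 1) → a x ≠ 1 ∧ a x ≠ 2
  rim : ∀ x ∈ Om, |x 0| + |x 1| = 1 → x 3 = 0 → a x ≠ 1 ∧ a x ≠ 2
  symA : ∀ x ∈ Om, |x 0| + |x 1| = 1 → a (T x) = a x
  symS : ∀ x ∈ Om, |x 0| + |x 1| = 1 → s (T x) = s x
  b0 : ∀ x ∈ Om, x 3 = 0 → x 2 ≤ 1 → a x = 0 → s x = 1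
  b0' : ∀ x ∈ Om, x 3 = 0 → 1 ≤ x 2 → a x = 0 → s x = 0
  b1 : ∀ x ∈ Om, x 3 = 0 → x 2 = 1 → 0 ≤ x 0 → a x = 1 → s x = 1
  b1' : ∀ x ∈ Om, x 3 = 0 → x 2 = 1 → x 0 ≤ 0 → a x = 1 → s x = 0
  b2 : ∀ x ∈ Om, x 3 = 0 → x 2 = 1 → x 0 = 0 → 0 ≤ x 1 → a x = 2 → s x = 1
  b2' : ∀ x ∈ Om, x 3 = 0 → x 2 = 1 → x 0 = 0 → x 1 ≤ 0 → a x = 2 → s x = 0
  m0 : ∀ x ∈ Om, x 3 = 0 → x 2 = 1 → a x ≠ 0
  m1 : ∀ x ∈ Om, x 3 = 0 → x 2 = 1 → x 0 = 0 → a x ≠ 1
  c0 : s et = 1
  c1 : s (e1 + et) = 0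

theorem mem03 (C : Cond a s) {x : E4} (h : a x ≠ 1 ∧ a x ≠ 2) : a x ∈ ({0, 3} : Finset ℕ) := by
  have := C.lt4 x
  rw [Finset.mem_insert, Finset.mem_singleton]
  omega

theorem mem_all (C : Cond a s) (x : E4) : a x ∈ (Finset.range 4) :=
  Finset.mem_range.mpr (C.lt4 x)

/-- level sets -/
def Lv (t : ℝ) : Set E4 := {x | x ∈ Om ∧ x 2 = t ∧ x 3 = 0}

theorem R0_eq : R0 = Lv 0 := rfl

theorem shift {x : E4} (hx : x ∈ Om) (h2 : x 2 + 1 ≤ 2) : x + et ∈ Om := by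
  obtain ⟨k1, k2, k3, k4, k5⟩ := hx
  simp only [Om, Set.mem_ofPred_eq, Pi.add_apply, et_0, et_1, et_2, et_3, add_zero]
  exact ⟨k1, by linarith, h2, k4, k5⟩

theorem shiftz {x : E4} (hx : x ∈ Om) (h2 : x 3 = 0) (t : ℝ) (h0 : 0 ≤ t) (h1 : t ≤ 1) :
    x + t • ez ∈ Om := by
  obtain ⟨k1, k2, k3, k4, k5⟩ := hx
  simp only [Om, Set.mem_ofPred_eq, Pi.add_apply, Pi.smul_apply, ez_0, ez_1, ez_2, ez_3, smul_eq_mul,
    mul_zero, add_zero, mul_one]
  exact ⟨k1, k2, k3, by linarith, by linarith⟩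

theorem shiftt {x : E4} (hx : x ∈ Om) (h2 : x 2 + 1 ≤ 2) (t : ℝ) (h0 : 0 ≤ t) (h1 : t ≤ 1) :
    x + t • et ∈ Om := by
  obtain ⟨k1, k2, k3, k4, k5⟩ := hx
  simp only [Om, Set.mem_ofPred_eq, Pi.add_apply, Pi.smul_apply, et_0, et_1, et_2, et_3, smul_eq_mul,
    mul_zero, add_zero, mul_one]
  exact ⟨k1, by linarith, by linarith, k4, k5⟩

theorem mp_ft_mem {c : Chain E4} {n : ℕ} (hc : c ∈ S (PS n R0)) : mp ft c ∈ S (PS n (Lv 1)) := by
  refine mp_mem ?_ hc
  rintro x ⟨h1, h2, h3⟩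
  exact ⟨shift h1 (by rw [h2]; norm_num), by simp [h2], by simp [h3]⟩

theorem mp_ft_mem2 {c : Chain E4} {n : ℕ} (hc : c ∈ S (PS n (Lv 1))) :
    mp ft c ∈ S (PS n (Lv 2)) := by
  refine mp_mem ?_ hc
  rintro x ⟨h1, h2, h3⟩
  exact ⟨shift h1 (by rw [h2]; norm_num), by simp [h2]; norm_num, by simp [h3]⟩

/-- lower half of the bottom -/
def Lo : Set E4 := {x | x ∈ Om ∧ x 2 ≤ 1 ∧ x 3 = 0}
/-- upper half of the bottom -/
def Up : Set E4 := {x | x ∈ Om ∧ 1 ≤ x 2 ∧ x 3 = 0}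

theorem low_mem : pr ft c2 ∈ S (PS 4 Lo) := by
  refine pr_mem ?_ c2_mem
  rintro x ⟨h1, h2, h3⟩ t ht0 ht1
  refine ⟨shiftt h1 (by rw [h2]; norm_num) t ht0 ht1, ?_, by simp [h3]⟩
  simp [h2]; exact ht1

theorem up_mem : pr ft (mp ft c2) ∈ S (PS 4 Up) := by
  refine pr_mem ?_ (mp_ft_mem c2_mem)
  rintro x ⟨h1, h2, h3⟩ t ht0 ht1
  refine ⟨shiftt h1 (by rw [h2]; norm_num) t ht0 ht1, ?_, by simp [h3]⟩
  simp [h2]; exact ht0

/-- the top -/
def Bo : Set E4 := {x | x ∈ Om ∧ x 3 = 0}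

theorem c3_mem : c3 ∈ S (PS 4 Bo) := by
  rw [c3]
  refine Submodule.add_mem _ (PS_mono ?_ low_mem) (PS_mono ?_ up_mem)
  · rintro x ⟨h1, -, h3⟩; exact ⟨h1, h3⟩
  · rintro x ⟨h1, -, h3⟩; exact ⟨h1, h3⟩

theorem c4_mem : c4 ∈ S (PS 5 Om) := by
  rw [c4]
  refine pr_mem ?_ c3_mem
  rintro x ⟨h1, h3⟩ t ht0 ht1
  exact shiftz h1 h3 t ht0 ht1

/-- the level set `x 2 = 1` of the bottom -/
theorem eval_mid (L : Lab a s δ r) (C : Cond a s) : An a s r 3 (mp ft c2) = 1 := by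
  have hmap : mp ft c2 = mp ft Dp + mp ft Dm := by rw [c2_eq, map_add]
  -- the two halves
  let Hp : Set E4 := {x | x ∈ Om ∧ x 2 = 1 ∧ x 3 = 0 ∧ 0 ≤ x 0}
  let Hm : Set E4 := {x | x ∈ Om ∧ x 2 = 1 ∧ x 3 = 0 ∧ x 0 ≤ 0}
  have hDp : mp ft Dp ∈ S (PS 3 Hp) := by
    refine mp_mem ?_ Dp_mem
    rintro x ⟨h1, h2, h3, h4⟩
    exact ⟨shift h1 (by rw [h2]; norm_num), by simp [h2], by simp [h3], by simpa using h4⟩
  have hDm : mp ft Dm ∈ S (PS 3 Hm) := by
    refine mp_mem ?_ Dm_mem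
    rintro x ⟨h1, h2, h3, h4⟩
    exact ⟨shift h1 (by rw [h2]; norm_num), by simp [h2], by simp [h3], by simpa using h4⟩
  have hA : ∀ u : E4, u ∈ Om → u 3 = 0 → u 2 = 1 → a u ∈ ({1, 2, 3} : Finset ℕ) := by
    intro u h1 h2 h3
    have k1 := C.lt4 u
    have k2 := C.m0 u h1 h2 h3
    simp only [Finset.mem_insert, Finset.mem_singleton]
    omega
  have k1 : An a s r 3 (mp ft Dp) = 1 * Wn a s r 3 (mp ft Dp) := by
    refine fst_lab L (by norm_num) (by norm_num) (R := Hp) (fun x hx => hx.1) {1, 2, 3}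
      (fun u hu => hA u hu.1 hu.2.2.1 hu.2.1) (by decide) 1 (by decide) (by decide) 1 ?_ hDp
    intro u hu hau
    exact C.b1 u hu.1 hu.2.2.1 hu.2.1 hu.2.2.2 hau
  have k2 : An a s r 3 (mp ft Dm) = 0 * Wn a s r 3 (mp ft Dm) := by
    refine fst_lab L (by norm_num) (by norm_num) (R := Hm) (fun x hx => hx.1) {1, 2, 3}
      (fun u hu => hA u hu.1 hu.2.2.1 hu.2.1) (by decide) 1 (by decide) (by decide) 0 ?_ hDm
    intro u hu hau
    exact C.b1' u hu.1 hu.2.2.1 hu.2.1 hu.2.2.2 hau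
  rw [hmap, An_add, k1, k2, zero_mul, add_zero, one_mul, ← An_bd, ← mp_bd, bd_Dp, map_add, map_add,
    map_add, An_add, An_add, An_add]
  -- rim part
  let Rim : Set E4 := {x | x ∈ Om ∧ |x 0| + |x 1| = 1 ∧ x 2 = 1 ∧ x 3 = 0}
  have hrim : ∀ {c : Chain E4}, c ∈ S (PS 2 Rr) → An a s r 2 (mp ft c) = 0 := by
    intro c hc
    refine (van L (by norm_num) (R := Rim) (fun x hx => hx.1) {3} ?_ (by decide) ?_).1
    · rintro u ⟨h1, h2, h3, h4⟩
      have k0 := C.lt4 u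
      have k1 := C.rim u h1 h2 h4
      have k2 := C.m0 u h1 h4 h3
      rw [Finset.mem_singleton]
      omega
    · refine mp_mem ?_ hc
      rintro x ⟨h1, h2, h3, h4⟩
      exact ⟨shift h1 (by rw [h3]; norm_num), by simpa using h2, by simp [h3], by simp [h4]⟩
  rw [hrim rim_pp, hrim rim_mp]
  -- inner edges
  let Ep : Set E4 := {x | x ∈ Om ∧ x 2 = 0 ∧ x 3 = 0 ∧ x 0 = 0 ∧ 0 ≤ x 1}
  let Em : Set E4 := {x | x ∈ Om ∧ x 2 = 0 ∧ x 3 = 0 ∧ x 0 = 0 ∧ x 1 ≤ 0}
  let Ep1 : Set E4 := {x | x ∈ Om ∧ x 2 = 1 ∧ x 3 = 0 ∧ x 0 = 0 ∧ 0 ≤ x 1}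
  let Em1 : Set E4 := {x | x ∈ Om ∧ x 2 = 1 ∧ x 3 = 0 ∧ x 0 = 0 ∧ x 1 ≤ 0}
  have hEp : single [0, e1] (1 : ZMod 2) ∈ S (PS 2 Ep) := by
    refine edge_mem ?_ _ _ ?_ ?_
    · exact Om_convex.inter ((coord_convex 2 0).inter ((coord_convex 3 0).inter
        ((coord_convex 0 0).inter (coord_ge_convex 1 0))))
    · simp [Ep, Om]
    · simp [Ep, Om]
  have hEm : single [0, -e1] (1 : ZMod 2) ∈ S (PS 2 Em) := by
    refine edge_mem ?_ _ _ ?_ ?_
    · exact Om_convex.inter ((coord_convex 2 0).inter ((coord_convex 3 0).inter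
        ((coord_convex 0 0).inter (coord_le_convex 1 0))))
    · simp [Em, Om]
    · simp [Em, Om]
  have hEp1 : mp ft (single [0, e1] (1 : ZMod 2)) ∈ S (PS 2 Ep1) := by
    refine mp_mem ?_ hEp
    rintro x ⟨h1, h2, h3, h4, h5⟩
    exact ⟨shift h1 (by rw [h2]; norm_num), by simp [h2], by simp [h3], by simp [h4],
      by simpa using h5⟩
  have hEm1 : mp ft (single [0, -e1] (1 : ZMod 2)) ∈ S (PS 2 Em1) := by
    refine mp_mem ?_ hEm
    rintro x ⟨h1, h2, h3, h4, h5⟩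
    exact ⟨shift h1 (by rw [h2]; norm_num), by simp [h2], by simp [h3], by simp [h4],
      by simpa using h5⟩
  have hB : ∀ u : E4, u ∈ Om → u 3 = 0 → u 2 = 1 → u 0 = 0 → a u ∈ ({2, 3} : Finset ℕ) := by
    intro u h1 h2 h3 h4
    have k1 := C.lt4 u
    have k2 := C.m0 u h1 h2 h3
    have k3 := C.m1 u h1 h2 h3 h4
    simp only [Finset.mem_insert, Finset.mem_singleton]
    omega
  have q1 : An a s r 2 (mp ft (single [0, e1] (1 : ZMod 2))) =
      1 * Wn a s r 2 (mp ft (single [0, e1] (1 : ZMod 2))) := by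
    refine fst_lab L (by norm_num) (by norm_num) (R := Ep1) (fun x hx => hx.1) {2, 3}
      (fun u hu => hB u hu.1 hu.2.2.1 hu.2.1 hu.2.2.2.1) (by decide) 2 (by decide) (by decide) 1 ?_
      hEp1
    intro u hu hau
    exact C.b2 u hu.1 hu.2.2.1 hu.2.1 hu.2.2.2.1 hu.2.2.2.2 hau
  have q2 : An a s r 2 (mp ft (single [0, -e1] (1 : ZMod 2))) =
      0 * Wn a s r 2 (mp ft (single [0, -e1] (1 : ZMod 2))) := by
    refine fst_lab L (by norm_num) (by norm_num) (R := Em1) (fun x hx => hx.1) {2, 3}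
      (fun u hu => hB u hu.1 hu.2.2.1 hu.2.1 hu.2.2.2.1) (by decide) 2 (by decide) (by decide) 0 ?_
      hEm1
    intro u hu hau
    exact C.b2' u hu.1 hu.2.2.1 hu.2.1 hu.2.2.2.1 hu.2.2.2.2 hau
  rw [q1, q2, zero_mul, add_zero, one_mul, ← An_bd, ← mp_bd, bd_pair, map_add, mp_single, mp_single,
    An_add]
  simp only [List.map_cons, List.map_nil]
  rw [An_point, An_point]
  have p1 : ft e1 = e1 + et := rfl
  have p2 : ft 0 = et := by simp [ft]
  rw [p1, p2, C.c0, C.c1]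
  decide

theorem eval_bottom (L : Lab a s δ r) (C : Cond a s) : An a s r 4 c3 = 1 := by
  rw [c3, An_add]
  have k1 : An a s r 4 (pr ft c2) = 1 * Wn a s r 4 (pr ft c2) := by
    refine fst_lab L (by norm_num) (by norm_num) (R := Lo) (fun x hx => hx.1) (Finset.range 4)
      (fun u _ => mem_all C u) (by decide) 0 (by decide) (by decide) 1 ?_ low_mem
    intro u hu hau
    exact C.b0 u hu.1 hu.2.2 hu.2.1 hau
  have k2 : An a s r 4 (pr ft (mp ft c2)) = 0 * Wn a s r 4 (pr ft (mp ft c2)) := by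
    refine fst_lab L (by norm_num) (by norm_num) (R := Up) (fun x hx => hx.1) (Finset.range 4)
      (fun u _ => mem_all C u) (by decide) 0 (by decide) (by decide) 0 ?_ up_mem
    intro u hu hau
    exact C.b0' u hu.1 hu.2.2 hu.2.1 hau
  rw [k1, k2, zero_mul, add_zero, one_mul, ← An_bd, bd_pr, bd_c2, An_add, An_add]
  have m1 : An a s r 3 c2 = 0 := by
    refine (van L (by norm_num) (R := R0) (fun x hx => hx.1) {0, 3} ?_ (by decide) c2_mem).1
    intro u hu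
    exact mem03 C (C.side u hu.1 (Or.inl hu.2.1))
  have m2 : An a s r 3 (pr ft zz) = 0 := by
    refine (van L (by norm_num) (R := {x | x ∈ Om ∧ |x 0| + |x 1| = 1 ∧ x 3 = 0})
      (fun x hx => hx.1) {0, 3} ?_ (by decide) ?_).1
    · rintro u ⟨h1, h2, h3⟩
      exact mem03 C (C.rim u h1 h2 h3)
    · refine pr_mem ?_ zz_mem
      rintro x ⟨h1, h2, h3, h4⟩ t ht0 ht1
      exact ⟨shiftt h1 (by rw [h3]; norm_num) t ht0 ht1, by simpa using h2, by simp [h4]⟩
  rw [m1, m2, eval_mid L C]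
  decide

theorem no_labelling (L : Lab a s δ r) (C : Cond a s) : False := by
  have h5 : Wn a s r 5 c4 = 0 :=
    (van L le_rfl (R := Om) le_rfl (Finset.range 4) (fun u _ => mem_all C u) (by decide) c4_mem).2
  rw [← An_bd, bd_c4, An_add, An_add, An_add, An_add, eval_bottom L C] at h5
  have n1 : An a s r 4 (mp fz c3) = 0 := by
    refine (van L (by norm_num) (R := {x | x ∈ Om ∧ x 3 = 1}) (fun x hx => hx.1) {0, 3} ?_
      (by decide) ?_).1
    · rintro u ⟨h1, h2⟩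
      exact mem03 C (C.side u h1 (Or.inr (Or.inr h2)))
    · refine mp_mem ?_ c3_mem
      rintro x ⟨h1, h2⟩
      have := shiftz h1 h2 1 zero_le_one le_rfl
      rw [one_smul] at this
      exact ⟨this, by simp [h2]⟩
  have n2 : An a s r 4 (pr fz c2) = 0 := by
    refine (van L (by norm_num) (R := {x | x ∈ Om ∧ x 2 = 0}) (fun x hx => hx.1) {0, 3} ?_
      (by decide) ?_).1
    · rintro u ⟨h1, h2⟩
      exact mem03 C (C.side u h1 (Or.inl h2))
    · refine pr_mem ?_ c2_mem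
      rintro x ⟨h1, h2, h3⟩ t ht0 ht1
      exact ⟨shiftz h1 h3 t ht0 ht1, by simp [h2]⟩
  have n3 : An a s r 4 (pr fz (mp ft (mp ft c2))) = 0 := by
    refine (van L (by norm_num) (R := {x | x ∈ Om ∧ x 2 = 2}) (fun x hx => hx.1) {0, 3} ?_
      (by decide) ?_).1
    · rintro u ⟨h1, h2⟩
      exact mem03 C (C.side u h1 (Or.inr (Or.inl h2)))
    · refine pr_mem ?_ (mp_ft_mem2 (mp_ft_mem c2_mem))
      rintro x ⟨h1, h2, h3⟩ t ht0 ht1
      exact ⟨shiftz h1 h3 t ht0 ht1, by simp [h2]⟩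
  have n4 : An a s r 4 (pr fz (pr ft w + pr ft (mp ft w)) +
      mp T (pr fz (pr ft w + pr ft (mp ft w)))) = 0 := by
    refine sym_lab L (by norm_num) (R := {x | x ∈ Om ∧ |x 0| + |x 1| = 1}) (fun x hx => hx.1)
      (fun u hu => C.symA u hu.1 hu.2) (fun u hu => C.symS u hu.1 hu.2) ?_
    refine pr_mem (R := {x | x ∈ Om ∧ |x 0| + |x 1| = 1 ∧ x 3 = 0}) ?_ ?_
    · rintro x ⟨h1, h2, h3⟩ t ht0 ht1
      exact ⟨shiftz h1 h3 t ht0 ht1, by simpa using h2⟩
    · refine Submodule.add_mem _ ?_ ?_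
      · refine pr_mem ?_ w_mem
        rintro x ⟨h1, h2, h3, h4⟩ t ht0 ht1
        exact ⟨shiftt h1 (by rw [h3]; norm_num) t ht0 ht1, by simpa using h2, by simp [h4]⟩
      · refine pr_mem (R := {x | x ∈ Om ∧ |x 0| + |x 1| = 1 ∧ x 2 = 1 ∧ x 3 = 0}) ?_ ?_
        · rintro x ⟨h1, h2, h3, h4⟩ t ht0 ht1
          exact ⟨shiftt h1 (by rw [h3]; norm_num) t ht0 ht1, by simpa using h2, by simp [h4]⟩
        · refine mp_mem ?_ w_mem
          rintro x ⟨h1, h2, h3, h4⟩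
          exact ⟨shift h1 (by rw [h3]; norm_num), by simpa using h2, by simp [h3], by simp [h4]⟩
  rw [n1, n2, n3, n4] at h5
  revert h5
  decide

/-- **The parity lemma.** -/
theorem parity (F : E4 → E4) (hF : Continuous F) (hne : ∀ x ∈ Om, F x ≠ 0)
    (hside : ∀ x ∈ Om, (x 2 = 0 ∨ x 2 = 2 ∨ x 3 = 1) → F x 1 = 0 ∧ F x 2 = 0)
    (hrim : ∀ x ∈ Om, |x 0| + |x 1| = 1 → x 3 = 0 → F x 1 = 0 ∧ F x 2 = 0)
    (hT : ∀ x ∈ Om, |x 0| + |x 1| = 1 → F (T x) = F x)
    (hb0 : ∀ x ∈ Om, x 3 = 0 → x 2 ≤ 1 → 0 ≤ F x 0)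
    (hb0' : ∀ x ∈ Om, x 3 = 0 → 1 ≤ x 2 → F x 0 ≤ 0)
    (hb1 : ∀ x ∈ Om, x 3 = 0 → x 2 = 1 → 0 ≤ x 0 → 0 ≤ F x 1)
    (hb1' : ∀ x ∈ Om, x 3 = 0 → x 2 = 1 → x 0 ≤ 0 → F x 1 ≤ 0)
    (hb2 : ∀ x ∈ Om, x 3 = 0 → x 2 = 1 → x 0 = 0 → 0 ≤ x 1 → 0 ≤ F x 2)
    (hb2' : ∀ x ∈ Om, x 3 = 0 → x 2 = 1 → x 0 = 0 → x 1 ≤ 0 → F x 2 ≤ 0)
    (hc0 : 0 ≤ F et 3) (hc1 : F (e1 + et) 3 ≤ 0)
    (hd0 : F et 1 = 0 ∧ F et 2 = 0) : False := by
  have hKne : Om.Nonempty := ⟨0, by simp [Om]⟩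
  obtain ⟨x₀, hx₀, hmin⟩ := Om_compact.exists_isMinOn hKne (hF.norm.continuousOn (s := Om))
  have hc : 0 < ‖F x₀‖ := norm_pos_iff.mpr (hne x₀ hx₀)
  set c := ‖F x₀‖ with hcdef
  have hmin' : ∀ x ∈ Om, c ≤ ‖F x‖ := fun x hx => hmin hx
  have huc := Om_compact.uniformContinuousOn_of_continuous hF.continuousOn
  rw [Metric.uniformContinuousOn_iff] at huc
  obtain ⟨δ, hδ, hδ'⟩ := huc c hc
  obtain ⟨r, hr⟩ := exists_pow_lt_of_lt_one (show 0 < δ / 2 by positivity)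
    (show (5 / 6 : ℝ) < 1 by norm_num)
  let a : E4 → ℕ := fun x => (arg (fun i => |F x i|) : Fin 4)
  let s : E4 → ZMod 2 := fun x => if 0 < F x (arg (fun i => |F x i|)) then 1 else 0
  have hnorm : ∀ x, ‖F x‖ = |F x (arg (fun i => |F x i|))| := by
    intro x
    apply le_antisymm
    · rw [pi_norm_le_iff_of_nonneg (abs_nonneg _)]
      intro i
      exact arg_spec (fun i => |F x i|) i
    · exact norm_le_pi_norm (F x) _
  have hpos : ∀ x ∈ Om, F x (arg (fun i => |F x i|)) ≠ 0 := by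
    intro x hx h
    have h1 := hnorm x
    rw [h, abs_zero] at h1
    exact hne x hx (norm_eq_zero.mp h1)
  have hcompl : ∀ x ∈ Om, ∀ y ∈ Om, dist x y < δ → a x = a y → s x = s y := by
    intro x hx y hy hxy hax
    have hd := hδ' x hx y hy hxy
    have hax' : arg (fun i => |F x i|) = arg (fun i => |F y i|) := Fin.ext hax
    simp only [s]
    rw [← hax']
    have h1 := hnorm x
    have h2 := hnorm y
    rw [← hax'] at h2
    have h3 := hmin' x hx
    have h4 := hmin' y hy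
    have h5 : |F x (arg (fun i => |F x i|)) - F y (arg (fun i => |F x i|))| < c := by
      rw [dist_eq_norm] at hd
      exact lt_of_le_of_lt (norm_le_pi_norm (F x - F y) _) hd
    set p := F x (arg (fun i => |F x i|))
    set q := F y (arg (fun i => |F x i|))
    have h6 : c ≤ |p| := by rw [← h1]; exact h3
    have h7 : c ≤ |q| := by rw [← h2]; exact h4
    rw [abs_lt] at h5
    rcases le_abs'.mp h6 with h8 | h8 <;> rcases le_abs'.mp h7 with h9 | h9
    · have e1 : ¬ 0 < p := by linarith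
      have e2 : ¬ 0 < q := by linarith
      simp [e1, e2]
    · exfalso; linarith [h5.1]
    · exfalso; linarith [h5.2]
    · have e1 : 0 < p := by linarith
      have e2 : 0 < q := by linarith
      simp [e1, e2]
  have L : Lab a s δ r := ⟨hcompl, by linarith⟩
  have lab_ne : ∀ x ∈ Om, ∀ i : Fin 4, F x i = 0 → a x ≠ (i : ℕ) := by
    intro x hx i h0 hi
    have : arg (fun i => |F x i|) = i := Fin.ext hi
    exact hpos x hx (by rw [this]; exact h0)
  have lab_pos : ∀ x ∈ Om, ∀ i : Fin 4, 0 ≤ F x i → a x = (i : ℕ) → s x = 1 := by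
    intro x hx i h0 hi
    have h1 : arg (fun i => |F x i|) = i := Fin.ext hi
    have h2 := hpos x hx
    simp only [s]
    rw [h1] at h2 ⊢
    rw [if_pos (lt_of_le_of_ne h0 (Ne.symm h2))]
  have lab_neg : ∀ x ∈ Om, ∀ i : Fin 4, F x i ≤ 0 → a x = (i : ℕ) → s x = 0 := by
    intro x hx i h0 hi
    have h1 : arg (fun i => |F x i|) = i := Fin.ext hi
    simp only [s]
    rw [h1, if_neg (not_lt.mpr h0)]
  have hlt : ∀ x, a x < 4 := fun x => (arg (fun i => |F x i|)).2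
  have het : et ∈ Om := by simp [Om]
  have he1t : e1 + et ∈ Om := by simp [Om]
  refine no_labelling L (a := a) (s := s) ?_
  refine
    { lt4 := hlt
      side := fun x hx h => ⟨lab_ne x hx 1 (hside x hx h).1, lab_ne x hx 2 (hside x hx h).2⟩
      rim := fun x hx h h' => ⟨lab_ne x hx 1 (hrim x hx h h').1, lab_ne x hx 2 (hrim x hx h h').2⟩
      symA := fun x hx h => by simp only [a]; rw [hT x hx h]
      symS := fun x hx h => by simp only [s]; rw [hT x hx h]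
      b0 := fun x hx h h' => lab_pos x hx 0 (hb0 x hx h h')
      b0' := fun x hx h h' => lab_neg x hx 0 (hb0' x hx h h')
      b1 := fun x hx h h' h'' => lab_pos x hx 1 (hb1 x hx h h' h'')
      b1' := fun x hx h h' h'' => lab_neg x hx 1 (hb1' x hx h h' h'')
      b2 := fun x hx h h' h'' h3 => lab_pos x hx 2 (hb2 x hx h h' h'' h3)
      b2' := fun x hx h h' h'' h3 => lab_neg x hx 2 (hb2' x hx h h' h'' h3)
      m0 := fun x hx h h' => lab_ne x hx 0
        (le_antisymm (hb0' x hx h h'.ge) (hb0 x hx h h'.le))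
      m1 := fun x hx h h' h'' => lab_ne x hx 1
        (le_antisymm (hb1' x hx h h' h''.le) (hb1 x hx h h' h''.ge))
      c0 := ?_
      c1 := ?_ }
  · have k0 := hlt et
    have k1 : a et ≠ 0 := lab_ne et het 0
      (le_antisymm (hb0' et het (by simp) (by simp)) (hb0 et het (by simp) (by simp)))
    have k2 : a et ≠ 1 := lab_ne et het 1 hd0.1
    have k3 : a et ≠ 2 := lab_ne et het 2 hd0.2
    exact lab_pos et het 3 hc0 (by change a et = 3; omega)
  · have k0 := hlt (e1 + et)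
    have k1 : a (e1 + et) ≠ 0 := lab_ne _ he1t 0
      (le_antisymm (hb0' _ he1t (by simp) (by simp)) (hb0 _ he1t (by simp) (by simp)))
    have k := hrim (e1 + et) he1t (by simp) (by simp)
    have k2 : a (e1 + et) ≠ 1 := lab_ne _ he1t 1 k.1
    have k3 : a (e1 + et) ≠ 2 := lab_ne _ he1t 2 k.2
    exact lab_neg _ he1t 3 hc1 (by change a (e1 + et) = 3; omega)

end Pool.Agent.H261R3
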