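import Pool.Agent.H261R3.CurveDefs
import Pool.Agent.H261R3.Lift
import Pool.Agent.H261R3.Parity2

/-! The family of loops of rotations over the projective plane is not homotopic to a family of
points. -/

set_option autoImplicit false

namespace Pool.Agent.H261R3

open Quaternion

noncomputable section

/-- pure quaternion of a vector -/
def pv (v : E3) : ℍ[ℝ] := ⟨0, v 0, v 1, v 2⟩

/-- vector part of a quaternion -/
def vec (q : ℍ[ℝ]) : E3 := !₂[q.imI, q.imJ, q.imK]

/-- the quaternion `k` -/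
def kk : ℍ[ℝ] := ⟨0, 0, 0, 1⟩

/-- `exp (k θ)` -/
def ck (θ : ℝ) : ℍ[ℝ] := ⟨Real.cos θ, 0, 0, Real.sin θ⟩

/-- image of `k` under the rotation `q` -/
def rot (q : ℍ[ℝ]) : E3 := vec (q * kk * star q)

theorem pv_sum (b : Sph) : (b : E3) 0 ^ 2 + (b : E3) 1 ^ 2 + (b : E3) 2 ^ 2 = 1 := by
  have h := b.2
  rw [mem_sphere_zero_iff_norm, EuclideanSpace.norm_eq, Real.sqrt_eq_one] at h
  simpa [Fin.sum_univ_three] using h

theorem unit_mul_star {q : ℍ[ℝ]} (h : ‖q‖ = 1) : q * star q = 1 := by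
  rw [Quaternion.self_mul_star, Quaternion.normSq_eq_norm_mul_self, h]
  simp

theorem unit_star_mul {q : ℍ[ℝ]} (h : ‖q‖ = 1) : star q * q = 1 := by
  rw [Quaternion.star_mul_self, Quaternion.normSq_eq_norm_mul_self, h]
  simp

theorem norm_of_sum {q : ℍ[ℝ]} (h : q.re ^ 2 + q.imI ^ 2 + q.imJ ^ 2 + q.imK ^ 2 = 1) : ‖q‖ = 1 := by
  have h1 : ‖q‖ * ‖q‖ = 1 := by
    rw [← Quaternion.normSq_eq_norm_mul_self, Quaternion.normSq_def', h]
  nlinarith [norm_nonneg q]

theorem sum_of_norm {q : ℍ[ℝ]} (h : ‖q‖ = 1) : q.re ^ 2 + q.imI ^ 2 + q.imJ ^ 2 + q.imK ^ 2 = 1 := by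
  have h1 := Quaternion.normSq_eq_norm_mul_self q
  rw [Quaternion.normSq_def', h] at h1
  linarith

theorem norm_pv (b : Sph) : ‖pv b‖ = 1 := by
  apply norm_of_sum
  have := pv_sum b
  simp only [pv]
  linarith

theorem norm_ck (θ : ℝ) : ‖ck θ‖ = 1 := by
  apply norm_of_sum
  have := Real.sin_sq_add_cos_sq θ
  simp only [ck]
  linarith

theorem norm_kk : ‖kk‖ = 1 := by
  apply norm_of_sum
  simp [kk]

theorem pv_sq (b : Sph) : pv b * pv b = -1 := by
  have := pv_sum b
  ext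
  · simp [pv]; linarith
  · simp [pv]; ring
  · simp [pv]; ring
  · simp [pv]; ring

theorem pv_neg (b : Sph) : pv ((-b : Sph) : E3) = - pv b := by
  ext <;> simp [pv]

/-- the rotation quaternions of the family -/
def gq (b : Sph) (t : ℝ) : ℍ[ℝ] := pv b * ck (Real.pi * t) * star (pv b)

theorem norm_gq (b : Sph) (t : ℝ) : ‖gq b t‖ = 1 := by
  rw [gq, norm_mul, norm_mul, norm_pv, norm_ck, norm_star, norm_pv, mul_one, mul_one]

theorem gq_neg (b : Sph) (t : ℝ) : gq (-b) t = gq b t := by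
  rw [gq, gq, pv_neg, star_neg, neg_mul, neg_mul_neg]

theorem gq_eq (b : Sph) (t : ℝ) : gq b t = ⟨Real.cos (Real.pi * t),
    Real.sin (Real.pi * t) * (2 * (b : E3) 2 * (b : E3) 0),
    Real.sin (Real.pi * t) * (2 * (b : E3) 2 * (b : E3) 1),
    Real.sin (Real.pi * t) * (2 * (b : E3) 2 ^ 2 - 1)⟩ := by
  have h := pv_sum b
  have hs : star (pv b) = - pv b := by ext <;> simp [pv]
  rw [gq, hs]
  generalize Real.pi * t = θ
  generalize hx : (b : E3) 0 = x at *
  generalize hy : (b : E3) 1 = y at *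
  generalize hz : (b : E3) 2 = z at *
  ext
  · simp [pv, ck, hx, hy, hz]
    linear_combination (Real.cos θ) * h
  · simp [pv, ck, hx, hy, hz]
    ring
  · simp [pv, ck, hx, hy, hz]
    ring
  · simp [pv, ck, hx, hy, hz]
    linear_combination (-Real.sin θ) * h

theorem gq_zero (b : Sph) : gq b 0 = 1 := by
  rw [gq_eq]; ext <;> simp

theorem gq_one (b : Sph) : gq b 1 = -1 := by
  rw [gq_eq]; ext <;> simp

theorem re_conj (q : ℍ[ℝ]) : (q * kk * star q).re = 0 := by
  simp [kk]; ring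

theorem pv_rot (q : ℍ[ℝ]) : pv (rot q) = q * kk * star q := by
  ext
  · rw [re_conj]; simp [pv]
  · simp [pv, rot, vec]
  · simp [pv, rot, vec]
  · simp [pv, rot, vec]

theorem norm_rot {q : ℍ[ℝ]} (h : ‖q‖ = 1) : ‖rot q‖ = 1 := by
  have h1 : ‖q * kk * star q‖ = 1 := by rw [norm_mul, norm_mul, norm_star, h, norm_kk]; norm_num
  have h2 := sum_of_norm h1
  rw [re_conj] at h2
  rw [EuclideanSpace.norm_eq, Real.sqrt_eq_one, Fin.sum_univ_three]
  simp only [rot, vec]
  simpa using h2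

theorem rot_mem {q : ℍ[ℝ]} (h : ‖q‖ = 1) : rot q ∈ Metric.sphere (0 : E3) 1 := by
  rw [mem_sphere_zero_iff_norm]; exact norm_rot h

theorem rot_neg (q : ℍ[ℝ]) : rot (-q) = rot q := by
  rw [rot, rot, star_neg, neg_mul, neg_mul_neg]

/-- the family on the sphere -/
def gam (b : Sph) (t : ℝ) : Sph := ⟨rot (gq b t), rot_mem (norm_gq b t)⟩

/-- the family over the projective plane: `b ↦ (t ↦ R_b^t k)`, where `R_b^t` is the rotation by the
angle `2 π t` about the image of `k` under the half turn about `b` -/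
def γ : RP2 → ℝ → Sph := Quotient.lift gam (by
  rintro u v (rfl | rfl)
  · rfl
  · funext t
    apply Subtype.ext
    simp only [gam, gq_neg])

theorem gq_continuous : Continuous (fun p : Sph × ℝ => gq p.1 p.2) := by
  have h : (fun p : Sph × ℝ => gq p.1 p.2) = fun p => (Quaternion.linearIsometryEquivTuple.symm
      (!₂[Real.cos (Real.pi * p.2), Real.sin (Real.pi * p.2) * (2 * (p.1 : E3) 2 * (p.1 : E3) 0),
        Real.sin (Real.pi * p.2) * (2 * (p.1 : E3) 2 * (p.1 : E3) 1),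
        Real.sin (Real.pi * p.2) * (2 * (p.1 : E3) 2 ^ 2 - 1)]) : ℍ[ℝ]) := by
    funext p
    rw [gq_eq]
    ext <;> simp
  rw [h]
  apply (Quaternion.linearIsometryEquivTuple.symm).continuous.comp
  apply (PiLp.continuous_toLp 2 _).comp
  apply continuous_pi
  intro i
  fin_cases i <;> simp <;> fun_prop

end

end Pool.Agent.H261R3
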