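import Pool.Agent.H261R3.Neg

set_option autoImplicit false
set_option maxHeartbeats 400000

namespace Pool.Agent.H261R3

open Quaternion

noncomputable section

/-- the unnormalised parametrisation of the hemisphere -/
def wv (u v : ℝ) : E3 := !₂[u, v, 1 - |u| - |v|]

theorem wv_ne (u v : ℝ) : wv u v ≠ 0 := by
  intro h
  have h0 : u = 0 := by have := congrFun (congrArg (WithLp.ofLp) h) 0; simpa [wv] using this
  have h1 : v = 0 := by have := congrFun (congrArg (WithLp.ofLp) h) 1; simpa [wv] using this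
  have h2 := congrFun (congrArg (WithLp.ofLp) h) 2
  simp [wv, h0, h1] at h2

theorem wv_pos (u v : ℝ) : 0 < ‖wv u v‖ := norm_pos_iff.mpr (wv_ne u v)

/-- parametrisation of the hemisphere -/
def bb (u v : ℝ) : Sph := ⟨(‖wv u v‖⁻¹ : ℝ) • wv u v, by
  rw [mem_sphere_zero_iff_norm, norm_smul, norm_inv, norm_norm,
    inv_mul_cancel₀ (wv_pos u v).ne']⟩

theorem wv_continuous : Continuous (fun p : ℝ × ℝ => wv p.1 p.2) := by
  unfold wv
  apply (PiLp.continuous_toLp 2 _).comp
  apply continuous_pi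
  intro i
  fin_cases i <;> simp <;> fun_prop

theorem bb_continuous : Continuous (fun p : ℝ × ℝ => bb p.1 p.2) := by
  unfold bb
  apply Continuous.subtype_mk
  exact (wv_continuous.norm.inv₀ (fun p => (wv_pos p.1 p.2).ne')).smul wv_continuous

theorem bb_0 (u v : ℝ) : (bb u v : E3) 0 = ‖wv u v‖⁻¹ * u := by simp [bb, wv]
theorem bb_1 (u v : ℝ) : (bb u v : E3) 1 = ‖wv u v‖⁻¹ * v := by simp [bb, wv]
theorem bb_2 (u v : ℝ) : (bb u v : E3) 2 = ‖wv u v‖⁻¹ * (1 - |u| - |v|) := by simp [bb, wv]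

theorem bb_neg (u v : ℝ) (h : |u| + |v| = 1) : bb (-u) (-v) = - bb u v := by
  have h1 : wv (-u) (-v) = - wv u v := by
    ext i
    fin_cases i
    · simp [wv]
    · simp [wv]
    · simp only [wv, abs_neg]
      simp
      linarith
  apply Subtype.ext
  simp only [bb, h1, norm_neg, smul_neg]
  rfl

theorem pv_continuous : Continuous pv := by
  have h : pv = fun v => (Quaternion.linearIsometryEquivTuple.symm (!₂[0, v 0, v 1, v 2]) : ℍ[ℝ]) := by
    funext v
    ext <;> simp [pv]
  rw [h]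
  apply (Quaternion.linearIsometryEquivTuple.symm).continuous.comp
  apply (PiLp.continuous_toLp 2 _).comp
  apply continuous_pi
  intro i
  fin_cases i <;> simp <;> fun_prop

theorem γ_mk (b : Sph) (t : ℝ) : γ (Quotient.mk antipodal b) t = gam b t := rfl

theorem mk_neg (b : Sph) : Quotient.mk antipodal (-b) = Quotient.mk antipodal b :=
  Quotient.sound (Or.inr rfl)

theorem proj_zero {x : ℝ} (h : x = 0) : Set.projIcc (0 : ℝ) 1 zero_le_one x = 0 := by
  subst h; exact Set.projIcc_left _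

theorem proj_one {x : ℝ} (h : x = 1) : Set.projIcc (0 : ℝ) 1 zero_le_one x = 1 := by
  subst h; exact Set.projIcc_right _

theorem comp_ne {q : ℍ[ℝ]} (h : ‖q‖ = 1) : (![q.re, q.imI, q.imJ, q.imK] : E4) ≠ 0 := by
  intro h0
  have h1 := sum_of_norm h
  have a0 : q.re = 0 := congrFun h0 0
  have a1 : q.imI = 0 := congrFun h0 1
  have a2 : q.imJ = 0 := congrFun h0 2
  have a3 : q.imK = 0 := congrFun h0 3
  rw [a0, a1, a2, a3] at h1
  norm_num at h1

theorem comm_kk {q : ℍ[ℝ]} (h : q * kk = kk * q) : q.imI = 0 ∧ q.imJ = 0 := by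
  have h1 := congrArg (fun z : ℍ[ℝ] => z.imI) h
  have h2 := congrArg (fun z : ℍ[ℝ] => z.imJ) h
  simp [kk] at h1 h2
  constructor
  · linarith
  · linarith

theorem exists_G (H : unitInterval → RP2 → ℝ → Sph) (hH : IsHomotopyToPoints γ H) :
    ∃ G : unitInterval × Sph × unitInterval → ℍ[ℝ], Continuous G ∧ (∀ p, ‖G p‖ = 1) ∧
      (∀ τ b t, G (τ, -b, t) = G (τ, b, t)) ∧ (∀ τ b, G (τ, b, 0) = 1) ∧
      (∀ τ b, G (τ, b, 1) = -1) ∧ (∀ b t, G (0, b, t) = gq b t) ∧
      (∀ b t, G (1, b, t) * kk = kk * G (1, b, t)) := by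
  obtain ⟨h, hh⟩ : ∃ h : unitInterval × (Sph × unitInterval) → ℍ[ℝ],
    h = fun p => pv (H p.1 (Quotient.mk antipodal p.2.1) p.2.2) := ⟨_, rfl⟩
  have hval : ∀ τ b t, h (τ, (b, t)) = pv (H τ (Quotient.mk antipodal b) t) := by
    intro τ b t; rw [hh]
  have hc : Continuous h := by
    have h1 : Continuous (fun p : unitInterval × (Sph × unitInterval) =>
        ((p.1, Quotient.mk antipodal p.2.1, p.2.2) : unitInterval × RP2 × unitInterval)) := by
      refine continuous_fst.prodMk (Continuous.prodMk ?_ (continuous_snd.comp continuous_snd))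
      exact continuous_quotient_mk'.comp (continuous_fst.comp continuous_snd)
    rw [hh]
    exact pv_continuous.comp (continuous_subtype_val.comp (hH.continuous.comp h1))
  have hsq : ∀ p, h p * h p = -1 := by
    rintro ⟨τ, b, t⟩
    rw [hval]; exact pv_sq _
  obtain ⟨U, hUc, hU1, hU0, hUh, hUx⟩ := lift h hc hsq
  have eneg : ∀ τ b t, U (τ, (-b, t)) = U (τ, (b, t)) := by
    intro τ b t
    refine hUx _ _ (fun τ' => ?_) τ
    rw [hval, hval, mk_neg]
  have eone : ∀ τ b, U (τ, (b, 1)) = U (τ, (b, 0)) := by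
    intro τ b
    refine hUx _ _ (fun τ' => ?_) τ
    rw [hval, hval, Set.Icc.coe_zero, Set.Icc.coe_one, hH.closed]
  refine ⟨fun p => star (U (p.1, (p.2.1, 0))) * U p * gq p.2.1 p.2.2, ?_, ?_, ?_, ?_, ?_, ?_, ?_⟩
  · have c1 : Continuous (fun p : unitInterval × Sph × unitInterval =>
        ((p.1, (p.2.1, (0 : unitInterval))) : unitInterval × (Sph × unitInterval))) := by fun_prop
    have c2 : Continuous (fun p : unitInterval × Sph × unitInterval =>
        ((p.2.1, (p.2.2 : ℝ)) : Sph × ℝ)) := by fun_prop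
    have c3 : Continuous (fun p : unitInterval × Sph × unitInterval => U (p.1, (p.2.1, 0))) :=
      hUc.comp c1
    have c4 : Continuous (fun p : unitInterval × Sph × unitInterval => gq p.2.1 (p.2.2 : ℝ)) := by
      have c5 := gq_continuous.comp c2
      exact c5
    have c6 := (c3.star.mul hUc).mul c4
    exact c6
  · intro p
    rw [norm_mul, norm_mul, norm_star, hU1, hU1, norm_gq, mul_one, mul_one]
  · intro τ b t
    simp only [eneg, gq_neg]
  · intro τ b
    simp only [Set.Icc.coe_zero, unit_star_mul (hU1 _), gq_zero, one_mul]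
  · intro τ b
    simp only [Set.Icc.coe_one, eone, unit_star_mul (hU1 _), gq_one, one_mul]
  · intro b t
    simp only [hU0, star_one, one_mul]
  · intro b t
    change star (U (1, (b, 0))) * U (1, (b, t)) * gq b t * kk =
      kk * (star (U (1, (b, 0))) * U (1, (b, t)) * gq b t)
    have e0 : ∀ t : unitInterval, h (0, (b, t)) = gq b t * kk * star (gq b t) := by
      intro t
      rw [hval, hH.start _ _ t.2, γ_mk, gam, pv_rot]
    have e1 : h (1, (b, t)) = h (1, (b, 0)) := by
      rw [hval, hval, hH.stop _ _ t.2, Set.Icc.coe_zero]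
    have k1 := hUh 1 (b, t)
    have k0 := hUh 1 (b, 0)
    rw [e0, e1] at k1
    rw [e0] at k0
    rw [show gq b ((0 : unitInterval) : ℝ) = 1 by rw [Set.Icc.coe_zero, gq_zero], star_one,
      one_mul, mul_one] at k0
    generalize h (1, (b, 0)) = y at *
    have u0 := hU1 (1, (b, 0))
    generalize U (1, (b, 0)) = V at *
    generalize U (1, (b, t)) = W at *
    have k2 : star V * y = kk * star V := by
      calc star V * y
          = star V * y * (V * star V) := by rw [unit_mul_star u0, mul_one]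
        _ = star V * (y * V) * star V := by simp only [mul_assoc]
        _ = star V * (V * kk) * star V := by rw [k0]
        _ = (star V * V) * kk * star V := by simp only [mul_assoc]
        _ = kk * star V := by rw [unit_star_mul u0, one_mul]
    have k3 : W * gq b t * kk = y * W * gq b t := by
      calc W * gq b t * kk
          = W * (gq b t * kk * (star (gq b t) * gq b t)) := by
            rw [unit_star_mul (norm_gq b t), mul_one, mul_assoc]
        _ = W * (gq b t * kk * star (gq b t)) * gq b t := by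
            simp only [mul_assoc]
        _ = y * W * gq b t := by rw [k1]
    calc star V * W * gq b t * kk
        = star V * (W * gq b t * kk) := by simp only [mul_assoc]
      _ = star V * y * (W * gq b t) := by
          rw [k3]; simp only [mul_assoc]
      _ = kk * (star V * W * gq b t) := by
          rw [k2]; simp only [mul_assoc]

theorem not_homotopic (H : unitInterval → RP2 → ℝ → Sph) (hH : IsHomotopyToPoints γ H) : False := by
  obtain ⟨G, hGc, hG1, hGneg, hGt0, hGt1, hG0, hG1k⟩ := exists_G H hH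
  -- the map on the box
  obtain ⟨pj, hpj⟩ : ∃ pj : ℝ → unitInterval, pj = Set.projIcc 0 1 zero_le_one := ⟨_, rfl⟩
  have pjc : Continuous pj := by rw [hpj]; exact continuous_projIcc
  obtain ⟨g, hg⟩ : ∃ g : E4 → ℍ[ℝ],
    g = fun x => G (pj (x 3), bb (x 0) (x 1), pj (x 2 / 2)) := ⟨_, rfl⟩
  have gval : ∀ x, g x = G (pj (x 3), bb (x 0) (x 1), pj (x 2 / 2)) := fun x => by rw [hg]
  have hgc : Continuous g := by
    have b1 : Continuous (fun x : E4 => ((x 0, x 1) : ℝ × ℝ)) := by fun_prop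
    have b2 : Continuous (fun x : E4 => bb (x 0) (x 1)) := by
      have b5 := bb_continuous.comp b1
      exact b5
    have b3 : Continuous (fun x : E4 => pj (x 3)) := pjc.comp (continuous_apply 3)
    have b4 : Continuous (fun x : E4 => pj (x 2 / 2)) := pjc.comp ((continuous_apply 2).div_const 2)
    have h1 : Continuous (fun x : E4 => ((pj (x 3), bb (x 0) (x 1), pj (x 2 / 2)) :
        unitInterval × Sph × unitInterval)) := b3.prodMk (b2.prodMk b4)
    rw [hg]
    have h2 := hGc.comp h1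
    exact h2
  obtain ⟨F, hF⟩ : ∃ F : E4 → E4, F = fun x => ![(g x).re, (g x).imI, (g x).imJ, (g x).imK] :=
    ⟨_, rfl⟩
  have F0 : ∀ x, F x 0 = (g x).re := fun x => by rw [hF]; rfl
  have F1 : ∀ x, F x 1 = (g x).imI := fun x => by rw [hF]; rfl
  have F2 : ∀ x, F x 2 = (g x).imJ := fun x => by rw [hF]; rfl
  have F3 : ∀ x, F x 3 = (g x).imK := fun x => by rw [hF]; rfl
  have hFc : Continuous F := by
    rw [hF]
    apply continuous_pi
    intro i
    fin_cases i
    · exact Quaternion.continuous_re.comp hgc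
    · exact Quaternion.continuous_imI.comp hgc
    · exact Quaternion.continuous_imJ.comp hgc
    · exact Quaternion.continuous_imK.comp hgc
  have pj0 : ∀ x : ℝ, x = 0 → pj x = 0 := fun x hx => by rw [hpj]; exact proj_zero hx
  have pj1 : ∀ x : ℝ, x = 1 → pj x = 1 := fun x hx => by rw [hpj]; exact proj_one hx
  have pjv : ∀ x : ℝ, 0 ≤ x → x ≤ 1 → ((pj x : unitInterval) : ℝ) = x := by
    intro x h0 h1
    rw [hpj]
    exact congrArg Subtype.val (Set.projIcc_of_mem zero_le_one ⟨h0, h1⟩)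
  have gb : ∀ x ∈ Om, x 3 = 0 → g x = gq (bb (x 0) (x 1)) (x 2 / 2) := by
    intro x hx h3
    obtain ⟨k1, k2, k3, k4, k5⟩ := hx
    rw [gval, pj0 _ h3, hG0, pjv _ (by linarith) (by linarith)]
  have nn : ∀ x : E4, 0 ≤ ‖wv (x 0) (x 1)‖⁻¹ := fun x => by positivity
  have b2nn : ∀ x ∈ Om, 0 ≤ (bb (x 0) (x 1) : E3) 2 := by
    rintro x ⟨k1, -⟩
    rw [bb_2]
    exact mul_nonneg (nn x) (by linarith)
  have b2z : ∀ x : E4, |x 0| + |x 1| = 1 → (bb (x 0) (x 1) : E3) 2 = 0 := by
    intro x hx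
    rw [bb_2, show 1 - |x 0| - |x 1| = 0 by linarith, mul_zero]
  have hhalf : Real.sin (Real.pi * (1 / 2)) = 1 := by
    rw [show Real.pi * (1 / 2) = Real.pi / 2 by ring, Real.sin_pi_div_two]
  have hhalfc : Real.cos (Real.pi * (1 / 2)) = 0 := by
    rw [show Real.pi * (1 / 2) = Real.pi / 2 by ring, Real.cos_pi_div_two]
  refine parity F hFc ?_ ?_ ?_ ?_ ?_ ?_ ?_ ?_ ?_ ?_ ?_ ?_ ?_
  · intro x _
    rw [hF]
    exact comp_ne (by rw [gval]; exact hG1 _)
  · intro x hx hcase
    have key : (g x).imI = 0 ∧ (g x).imJ = 0 := by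
      rcases hcase with h | h | h
      · rw [gval, pj0 (x 2 / 2) (by rw [h]; norm_num), hGt0]
        simp
      · rw [gval, pj1 (x 2 / 2) (by rw [h]; norm_num), hGt1]
        simp
      · rw [gval, pj1 _ h]
        exact comm_kk (hG1k _ _)
    rw [F1, F2]
    exact key
  · intro x hx hr h3
    have e := gb x hx h3
    rw [gq_eq, b2z x hr] at e
    rw [F1, F2, e]
    simp
  · intro x hx hr
    have e : g (T x) = g x := by
      rw [gval, gval, T_0, T_1, T_2, T_3, bb_neg _ _ hr, hGneg]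
    rw [hF]
    simp only [e]
  · intro x hx h3 h2
    have e := gb x hx h3
    rw [gq_eq] at e
    rw [F0, e]
    change 0 ≤ Real.cos (Real.pi * (x 2 / 2))
    apply Real.cos_nonneg_of_neg_pi_div_two_le_of_le
    · nlinarith [Real.pi_pos, hx.2.1]
    · nlinarith [Real.pi_pos, hx.2.1]
  · intro x hx h3 h2
    have e := gb x hx h3
    rw [gq_eq] at e
    rw [F0, e]
    change Real.cos (Real.pi * (x 2 / 2)) ≤ 0
    apply Real.cos_nonpos_of_pi_div_two_le_of_le
    · nlinarith [Real.pi_pos, hx.2.1]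
    · nlinarith [Real.pi_pos, hx.2.2.1]
  · intro x hx h3 h2 h0
    have e := gb x hx h3
    rw [gq_eq, h2, hhalf, hhalfc] at e
    rw [F1, e]
    change 0 ≤ 1 * (2 * (bb (x 0) (x 1) : E3) 2 * (bb (x 0) (x 1) : E3) 0)
    rw [bb_0]
    have := b2nn x hx
    have := nn x
    positivity
  · intro x hx h3 h2 h0
    have e := gb x hx h3
    rw [gq_eq, h2, hhalf, hhalfc] at e
    rw [F1, e]
    change 1 * (2 * (bb (x 0) (x 1) : E3) 2 * (bb (x 0) (x 1) : E3) 0) ≤ 0
    rw [bb_0, one_mul]
    have a1 := b2nn x hx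
    have a2 := nn x
    have a3 : ‖wv (x 0) (x 1)‖⁻¹ * x 0 ≤ 0 := mul_nonpos_of_nonneg_of_nonpos a2 h0
    exact mul_nonpos_of_nonneg_of_nonpos (by positivity) a3
  · intro x hx h3 h2 h0 h1
    have e := gb x hx h3
    rw [gq_eq, h2, hhalf, hhalfc] at e
    rw [F2, e]
    change 0 ≤ 1 * (2 * (bb (x 0) (x 1) : E3) 2 * (bb (x 0) (x 1) : E3) 1)
    rw [bb_1]
    have := b2nn x hx
    have := nn x
    positivity
  · intro x hx h3 h2 h0 h1
    have e := gb x hx h3
    rw [gq_eq, h2, hhalf, hhalfc] at e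
    rw [F2, e]
    change 1 * (2 * (bb (x 0) (x 1) : E3) 2 * (bb (x 0) (x 1) : E3) 1) ≤ 0
    rw [bb_1, one_mul]
    have a1 := b2nn x hx
    have a2 := nn x
    have a3 : ‖wv (x 0) (x 1)‖⁻¹ * x 1 ≤ 0 := mul_nonpos_of_nonneg_of_nonpos a2 h1
    exact mul_nonpos_of_nonneg_of_nonpos (by positivity) a3
  · have e := gb et (by simp [Om]) (by simp)
    rw [gq_eq] at e
    simp only [et_0, et_1, et_2, hhalf, hhalfc] at e
    rw [F3, e]
    change 0 ≤ 1 * (2 * (bb 0 0 : E3) 2 ^ 2 - 1)
    have hs := pv_sum (bb 0 0)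
    have z0 : (bb 0 0 : E3) 0 = 0 := by rw [bb_0, mul_zero]
    have z1 : (bb 0 0 : E3) 1 = 0 := by rw [bb_1, mul_zero]
    rw [z0, z1] at hs
    linarith
  · have e := gb (e1 + et) (by simp [Om]) (by simp)
    rw [gq_eq] at e
    have hz := b2z (e1 + et) (by simp)
    rw [hz] at e
    have h2 : (e1 + et) 2 / 2 = 1 / 2 := by simp
    rw [h2, hhalf] at e
    rw [F3, e]
    simp
  · have e := gb et (by simp [Om]) (by simp)
    rw [gq_eq] at e
    simp only [et_0, et_1, et_2, hhalf, hhalfc] at e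
    rw [F1, F2, e]
    have z0 : (bb 0 0 : E3) 0 = 0 := by rw [bb_0, mul_zero]
    have z1 : (bb 0 0 : E3) 1 = 0 := by rw [bb_1, mul_zero]
    rw [z0, z1]
    simp

end

end Pool.Agent.H261R3
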