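import Pool.Agent.H261R3.Prism

/-! The parity lemma: a map on a box with prescribed behaviour on the boundary has a zero. -/

set_option autoImplicit false
set_option linter.unusedSectionVars false

namespace Pool.Agent.H261R3

open Finsupp
open Pool.Agent.Helper82.BorsukUlam

abbrev E4 := Fin 4 → ℝ

/-- the region: diamond times two intervals -/
def Om : Set E4 := {x | |x 0| + |x 1| ≤ 1 ∧ 0 ≤ x 2 ∧ x 2 ≤ 2 ∧ 0 ≤ x 3 ∧ x 3 ≤ 1}

/-- the involution -/
def T : E4 →ₗ[ℝ] E4 where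
  toFun x := ![-x 0, -x 1, x 2, x 3]
  map_add' x y := by ext i; fin_cases i <;> simp <;> ring
  map_smul' c x := by ext i; fin_cases i <;> simp

@[simp] theorem T_0 (x : E4) : T x 0 = -x 0 := rfl
@[simp] theorem T_1 (x : E4) : T x 1 = -x 1 := rfl
@[simp] theorem T_2 (x : E4) : T x 2 = x 2 := rfl
@[simp] theorem T_3 (x : E4) : T x 3 = x 3 := rfl

def e0 : E4 := ![1, 0, 0, 0]
def e1 : E4 := ![0, 1, 0, 0]
def et : E4 := ![0, 0, 1, 0]
def ez : E4 := ![0, 0, 0, 1]

@[simp] theorem e0_0 : e0 0 = 1 := rfl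
@[simp] theorem e0_1 : e0 1 = 0 := rfl
@[simp] theorem e0_2 : e0 2 = 0 := rfl
@[simp] theorem e0_3 : e0 3 = 0 := rfl
@[simp] theorem e1_0 : e1 0 = 0 := rfl
@[simp] theorem e1_1 : e1 1 = 1 := rfl
@[simp] theorem e1_2 : e1 2 = 0 := rfl
@[simp] theorem e1_3 : e1 3 = 0 := rfl
@[simp] theorem et_0 : et 0 = 0 := rfl
@[simp] theorem et_1 : et 1 = 0 := rfl
@[simp] theorem et_2 : et 2 = 1 := rfl
@[simp] theorem et_3 : et 3 = 0 := rfl
@[simp] theorem ez_0 : ez 0 = 0 := rfl
@[simp] theorem ez_1 : ez 1 = 0 := rfl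
@[simp] theorem ez_2 : ez 2 = 0 := rfl
@[simp] theorem ez_3 : ez 3 = 1 := rfl

theorem T_e0 : T e0 = -e0 := by ext i; fin_cases i <;> simp
theorem T_e1 : T e1 = -e1 := by ext i; fin_cases i <;> simp
theorem T_et : T et = et := by ext i; fin_cases i <;> simp
theorem T_ez : T ez = ez := by ext i; fin_cases i <;> simp

theorem Om_convex : Convex ℝ Om := by
  intro x hx y hy a b ha hb hab
  obtain ⟨h1, h2, h3, h4, h5⟩ := hx
  obtain ⟨k1, k2, k3, k4, k5⟩ := hy
  simp only [Om, Set.mem_ofPred_eq, Pi.add_apply, Pi.smul_apply, smul_eq_mul]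
  refine ⟨?_, by positivity, ?_, by positivity, ?_⟩
  · calc |a * x 0 + b * y 0| + |a * x 1 + b * y 1|
        ≤ (a * |x 0| + b * |y 0|) + (a * |x 1| + b * |y 1|) := by
          gcongr
          · exact (abs_add_le _ _).trans (by rw [abs_mul, abs_mul, abs_of_nonneg ha, abs_of_nonneg hb])
          · exact (abs_add_le _ _).trans (by rw [abs_mul, abs_mul, abs_of_nonneg ha, abs_of_nonneg hb])
      _ = a * (|x 0| + |x 1|) + b * (|y 0| + |y 1|) := by ring
      _ ≤ a * 1 + b * 1 := by gcongr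
      _ = 1 := by linarith
  · calc a * x 2 + b * y 2 ≤ a * 2 + b * 2 := by gcongr
      _ = 2 := by rw [← add_mul, hab, one_mul]
  · calc a * x 3 + b * y 3 ≤ a * 1 + b * 1 := by gcongr
      _ = 1 := by linarith

theorem Om_diam : ∀ x ∈ Om, ∀ y ∈ Om, ‖x - y‖ ≤ 2 := by
  rintro x ⟨h1, h2, h3, h4, h5⟩ y ⟨k1, k2, k3, k4, k5⟩
  have a1 := abs_nonneg (x 0)
  have a2 := abs_nonneg (x 1)
  have a3 := abs_nonneg (y 0)
  have a4 := abs_nonneg (y 1)
  have b1 := abs_le.mp (show |x 0| ≤ 1 by linarith)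
  have b2 := abs_le.mp (show |x 1| ≤ 1 by linarith)
  have b3 := abs_le.mp (show |y 0| ≤ 1 by linarith)
  have b4 := abs_le.mp (show |y 1| ≤ 1 by linarith)
  rw [pi_norm_le_iff_of_nonneg (by norm_num)]
  intro i
  rw [Pi.sub_apply, Real.norm_eq_abs, abs_le]
  fin_cases i <;> simp <;> constructor <;> linarith

theorem Om_compact : IsCompact Om := by
  apply Metric.isCompact_of_isClosed_isBounded
  · have h1 : IsClosed {x : E4 | |x 0| + |x 1| ≤ 1} :=
      isClosed_le (by fun_prop) continuous_const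
    have h2 : IsClosed {x : E4 | 0 ≤ x 2} := isClosed_le continuous_const (by fun_prop)
    have h3 : IsClosed {x : E4 | x 2 ≤ 2} := isClosed_le (by fun_prop) continuous_const
    have h4 : IsClosed {x : E4 | 0 ≤ x 3} := isClosed_le continuous_const (by fun_prop)
    have h5 : IsClosed {x : E4 | x 3 ≤ 1} := isClosed_le (by fun_prop) continuous_const
    exact h1.inter (h2.inter (h3.inter (h4.inter h5)))
  · rw [isBounded_iff_forall_norm_le]
    refine ⟨2, fun x hx => ?_⟩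
    have h0 : (0 : E4) ∈ Om := by simp [Om]
    have := Om_diam x hx 0 h0
    rwa [sub_zero] at this

noncomputable section

def w : Chain E4 := single [e1, e0] 1 + single [e1, -e0] 1
def zz : Chain E4 := w + mp T w
def c2 : Chain E4 := cone 0 zz
def Dp : Chain E4 := cone 0 (single [e1, e0] 1 + single [-e1, e0] 1)
def Dm : Chain E4 := cone 0 (single [e1, -e0] 1 + single [-e1, -e0] 1)
def ft : E4 → E4 := fun x => x + et
def fz : E4 → E4 := fun x => x + ez
def c3 : Chain E4 := pr ft c2 + pr ft (mp ft c2)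
def c4 : Chain E4 := pr fz c3

theorem mp_w : mp T w = single [-e1, -e0] 1 + single [-e1, e0] 1 := by
  rw [w, map_add, mp_single, mp_single]
  simp [T_e0, T_e1]

theorem two (c : Chain E4) : c + c = 0 := add_self c

theorem bd_pair (x y : E4) : bd (single [x, y] (1 : ZMod 2)) = single [y] 1 + single [x] 1 := by
  rw [bd_single, one_smul]
  simp only [bdL, map_add, cone_single, map_zero, add_zero]

theorem bd_zz : bd zz = 0 := by
  rw [zz, mp_w, w]
  simp only [map_add, bd_pair]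
  have h1 := two (single [e0] (1 : ZMod 2))
  have h2 := two (single [e1] (1 : ZMod 2))
  have h3 := two (single [-e0] (1 : ZMod 2))
  have h4 := two (single [-e1] (1 : ZMod 2))
  calc _ = (single [e0] (1 : ZMod 2) + single [e0] (1 : ZMod 2)) +
        (single [e1] (1 : ZMod 2) + single [e1] (1 : ZMod 2)) +
        (single [-e0] (1 : ZMod 2) + single [-e0] (1 : ZMod 2)) +
        (single [-e1] (1 : ZMod 2) + single [-e1] (1 : ZMod 2)) := by abel
    _ = 0 := by rw [h1, h2, h3, h4]; simp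

theorem c2_eq : c2 = Dp + Dm := by
  rw [c2, zz, mp_w, w, Dp, Dm, ← map_add]
  congr 1
  abel

theorem bd_c2 : bd c2 = zz := by
  rw [c2, bd_cone, bd_zz, map_zero, add_zero]

theorem bd_c3 : bd c3 = c2 + mp ft (mp ft c2) + pr ft zz + pr ft (mp ft zz) := by
  rw [c3, map_add, bd_pr, bd_pr, bd_c2, ← mp_bd, bd_c2]
  have := two (mp ft c2)
  calc _ = c2 + mp ft (mp ft c2) + pr ft zz + pr ft (mp ft zz) + (mp ft c2 + mp ft c2) := by abel
    _ = _ := by rw [this, add_zero]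

theorem bd_c4 : bd c4 = c3 + mp fz c3 + pr fz c2 + pr fz (mp ft (mp ft c2)) +
    (pr fz (pr ft w + pr ft (mp ft w)) + mp T (pr fz (pr ft w + pr ft (mp ft w)))) := by
  have hft : ∀ v, T (ft v) = ft (T v) := by
    intro v; simp only [ft, map_add, T_et]
  have hfz : ∀ v, T (fz v) = fz (T v) := by
    intro v; simp only [fz, map_add, T_ez]
  rw [c4, bd_pr, bd_c3]
  simp only [map_add]
  rw [mp_pr _ _ hfz, mp_pr _ _ hft, mp_pr _ _ hfz, mp_pr _ _ hft, mp_mp_comm _ _ hft, zz]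
  simp only [map_add]
  abel

theorem bd_Dp : bd Dp = (single [e1, e0] 1 + single [-e1, e0] 1) +
    (single [0, e1] 1 + single [0, -e1] 1) := by
  rw [Dp, bd_cone]
  simp only [map_add, bd_pair, cone_single]
  have := two (single [0, e0] (1 : ZMod 2))
  calc _ = single [e1, e0] 1 + single [-e1, e0] 1 + (single [0, e1] 1 + single [0, -e1] 1) +
        (single [0, e0] (1 : ZMod 2) + single [0, e0] (1 : ZMod 2)) := by abel
    _ = _ := by rw [this, add_zero]

end

/-! ### supports -/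

theorem hyper_convex (α β : ℝ) (c : ℝ) : Convex ℝ {x : E4 | x ∈ Om ∧ α * x 0 + β * x 1 = c} := by
  have h : Convex ℝ {x : E4 | α * x 0 + β * x 1 = c} := by
    intro x hx y hy a b ha hb hab
    simp only [Set.mem_ofPred_eq, Pi.add_apply, Pi.smul_apply, smul_eq_mul] at *
    calc α * (a * x 0 + b * y 0) + β * (a * x 1 + b * y 1)
        = a * (α * x 0 + β * x 1) + b * (α * y 0 + β * y 1) := by ring
      _ = c := by rw [hx, hy, ← add_mul, hab, one_mul]
  exact Om_convex.inter h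

theorem coord_convex (i : Fin 4) (c : ℝ) : Convex ℝ {x : E4 | x i = c} := by
  intro x hx y hy a b ha hb hab
  simp only [Set.mem_ofPred_eq, Pi.add_apply, Pi.smul_apply, smul_eq_mul] at *
  rw [hx, hy, ← add_mul, hab, one_mul]

theorem coord_ge_convex (i : Fin 4) (c : ℝ) : Convex ℝ {x : E4 | c ≤ x i} := by
  intro x hx y hy a b ha hb hab
  simp only [Set.mem_ofPred_eq, Pi.add_apply, Pi.smul_apply, smul_eq_mul] at *
  calc c = a * c + b * c := by rw [← add_mul, hab, one_mul]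
    _ ≤ a * x i + b * y i := by gcongr

theorem coord_le_convex (i : Fin 4) (c : ℝ) : Convex ℝ {x : E4 | x i ≤ c} := by
  intro x hx y hy a b ha hb hab
  simp only [Set.mem_ofPred_eq, Pi.add_apply, Pi.smul_apply, smul_eq_mul] at *
  calc a * x i + b * y i ≤ a * c + b * c := by gcongr
    _ = c := by rw [← add_mul, hab, one_mul]

/-- bottom face of the diamond: level `x 2 = 0`, `x 3 = 0` -/
def R0 : Set E4 := {x | x ∈ Om ∧ x 2 = 0 ∧ x 3 = 0}

/-- its rim -/
def Rr : Set E4 := {x | x ∈ Om ∧ |x 0| + |x 1| = 1 ∧ x 2 = 0 ∧ x 3 = 0}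

theorem rim_mem (α β : ℝ) (hα : α = 1 ∨ α = -1) (hβ : β = 1 ∨ β = -1) :
    single [β • e1, α • e0] (1 : ZMod 2) ∈ S (PS 2 Rr) := by
  refine single_mem_S ⟨rfl, {x | (x ∈ Om ∧ α * x 0 + β * x 1 = 1) ∧ x 2 = 0 ∧ x 3 = 0}, ?_, ?_, ?_⟩ 1
  · exact (hyper_convex α β 1).inter ((coord_convex 2 0).inter (coord_convex 3 0))
  · rintro x ⟨⟨h1, h2⟩, h3, h4⟩
    refine ⟨h1, le_antisymm h1.1 ?_, h3, h4⟩
    have e1 : α * x 0 ≤ |x 0| := by
      rcases hα with rfl | rfl
      · rw [one_mul]; exact le_abs_self _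
      · rw [neg_one_mul]; exact neg_le_abs _
    have e2 : β * x 1 ≤ |x 1| := by
      rcases hβ with rfl | rfl
      · rw [one_mul]; exact le_abs_self _
      · rw [neg_one_mul]; exact neg_le_abs _
    linarith
  · intro u hu
    rcases List.mem_cons.mp hu with rfl | hu
    · rcases hβ with rfl | rfl <;> simp [Om]
    · rw [List.mem_singleton] at hu
      subst hu
      rcases hα with rfl | rfl <;> simp [Om]

theorem rim_pp : single [e1, e0] (1 : ZMod 2) ∈ S (PS 2 Rr) := by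
  simpa using rim_mem 1 1 (Or.inl rfl) (Or.inl rfl)
theorem rim_pm : single [e1, -e0] (1 : ZMod 2) ∈ S (PS 2 Rr) := by
  simpa using rim_mem (-1) 1 (Or.inr rfl) (Or.inl rfl)
theorem rim_mm : single [-e1, -e0] (1 : ZMod 2) ∈ S (PS 2 Rr) := by
  simpa using rim_mem (-1) (-1) (Or.inr rfl) (Or.inr rfl)
theorem rim_mp : single [-e1, e0] (1 : ZMod 2) ∈ S (PS 2 Rr) := by
  simpa using rim_mem 1 (-1) (Or.inl rfl) (Or.inr rfl)

theorem w_mem : w ∈ S (PS 2 Rr) := Submodule.add_mem _ rim_pp rim_pm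

theorem zz_mem : zz ∈ S (PS 2 Rr) := by
  rw [zz, mp_w]
  exact Submodule.add_mem _ w_mem (Submodule.add_mem _ rim_mm rim_mp)

theorem tri_mem {C : Set E4} (hC : Convex ℝ C) (x y : E4) (h0 : (0 : E4) ∈ C) (hx : x ∈ C) (hy : y ∈ C) :
    cone 0 (single [x, y] (1 : ZMod 2)) ∈ S (PS 3 C) := by
  rw [cone_single]
  refine single_mem_S ⟨rfl, C, hC, le_rfl, ?_⟩ 1
  intro u hu
  rcases List.mem_cons.mp hu with rfl | hu
  · exact h0
  rcases List.mem_cons.mp hu with rfl | hu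
  · exact hx
  rw [List.mem_singleton] at hu
  subst hu
  exact hy

theorem edge_mem {C : Set E4} (hC : Convex ℝ C) (x y : E4) (hx : x ∈ C) (hy : y ∈ C) :
    single [x, y] (1 : ZMod 2) ∈ S (PS 2 C) := by
  refine single_mem_S ⟨rfl, C, hC, le_rfl, ?_⟩ 1
  intro u hu
  rcases List.mem_cons.mp hu with rfl | hu
  · exact hx
  rw [List.mem_singleton] at hu
  subst hu
  exact hy

def Rp : Set E4 := {x | x ∈ Om ∧ x 2 = 0 ∧ x 3 = 0 ∧ 0 ≤ x 0}
def Rm : Set E4 := {x | x ∈ Om ∧ x 2 = 0 ∧ x 3 = 0 ∧ x 0 ≤ 0}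

theorem Rp_convex : Convex ℝ Rp :=
  Om_convex.inter ((coord_convex 2 0).inter ((coord_convex 3 0).inter (coord_ge_convex 0 0)))
theorem Rm_convex : Convex ℝ Rm :=
  Om_convex.inter ((coord_convex 2 0).inter ((coord_convex 3 0).inter (coord_le_convex 0 0)))

theorem Dp_mem : Dp ∈ S (PS 3 Rp) := by
  rw [Dp, map_add]
  refine Submodule.add_mem _ (tri_mem Rp_convex _ _ ?_ ?_ ?_) (tri_mem Rp_convex _ _ ?_ ?_ ?_) <;>
    simp [Rp, Om]

theorem Dm_mem : Dm ∈ S (PS 3 Rm) := by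
  rw [Dm, map_add]
  refine Submodule.add_mem _ (tri_mem Rm_convex _ _ ?_ ?_ ?_) (tri_mem Rm_convex _ _ ?_ ?_ ?_) <;>
    simp [Rm, Om]

theorem c2_mem : c2 ∈ S (PS 3 R0) := by
  rw [c2_eq]
  refine Submodule.add_mem _ (PS_mono ?_ Dp_mem) (PS_mono ?_ Dm_mem)
  · rintro x ⟨h1, h2, h3, -⟩; exact ⟨h1, h2, h3⟩
  · rintro x ⟨h1, h2, h3, -⟩; exact ⟨h1, h2, h3⟩

end Pool.Agent.H261R3
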