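import Pool.Agent.H261R3.Neg2

set_option autoImplicit false
set_option maxHeartbeats 400000

/-! The doubled family is deformable to a family of points through short curves. -/

namespace Pool.Agent.H261R3

open Quaternion
open scoped ContDiff

noncomputable section

/-- the null-homotopy of the double rotation loop in the unit quaternions -/
def EE (τ t : ℝ) : ℍ[ℝ] :=
  ⟨Real.cos (Real.pi / 2 * τ) * Real.cos (2 * Real.pi * t), Real.sin (Real.pi / 2 * τ), 0,
    Real.cos (Real.pi / 2 * τ) * Real.sin (2 * Real.pi * t)⟩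

theorem norm_EE (τ t : ℝ) : ‖EE τ t‖ = 1 := by
  apply norm_of_sum
  have h1 := Real.sin_sq_add_cos_sq (Real.pi / 2 * τ)
  have h2 := Real.sin_sq_add_cos_sq (2 * Real.pi * t)
  simp only [EE]
  linear_combination h1 + (Real.cos (Real.pi / 2 * τ)) ^ 2 * h2

/-- the quaternion of the deformation -/
def HH (τ : ℝ) (b : Sph) (t : ℝ) : ℍ[ℝ] := pv b * EE τ t * star (pv b)

theorem norm_HH (τ : ℝ) (b : Sph) (t : ℝ) : ‖HH τ b t‖ = 1 := by
  rw [HH, norm_mul, norm_mul, norm_pv, norm_EE, norm_star, norm_pv, mul_one, mul_one]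

theorem HH_neg (τ : ℝ) (b : Sph) (t : ℝ) : HH τ (-b) t = HH τ b t := by
  rw [HH, HH, pv_neg, star_neg, neg_mul, neg_mul_neg]

/-- the deformation on the sphere -/
def defm (τ : ℝ) (b : Sph) (t : ℝ) : Sph := ⟨rot (HH τ b t), rot_mem (norm_HH τ b t)⟩

/-- the deformation of the doubled family -/
def HD (τ : unitInterval) : RP2 → ℝ → Sph := Quotient.lift (defm τ) (by
  rintro u v (rfl | rfl)
  · rfl
  · funext t
    apply Subtype.ext
    simp only [defm, HH_neg])

theorem HD_mk (τ : unitInterval) (b : Sph) (t : ℝ) :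
    HD τ (Quotient.mk antipodal b) t = defm τ b t := rfl

theorem star_pv (b : E3) : star (pv b) = - pv b := by ext <;> simp [pv]

/-- explicit coordinates -/
def hc (τ : ℝ) (b : E3) (t : ℝ) : Fin 3 → ℝ :=
  let q := pv b * EE τ t * star (pv b)
  ![2 * (q.imI * q.imK + q.re * q.imJ), 2 * (q.imJ * q.imK - q.re * q.imI),
    q.re ^ 2 + q.imK ^ 2 - q.imI ^ 2 - q.imJ ^ 2]

theorem rot_eq (q : ℍ[ℝ]) : rot q = !₂[2 * (q.imI * q.imK + q.re * q.imJ),
    2 * (q.imJ * q.imK - q.re * q.imI), q.re ^ 2 + q.imK ^ 2 - q.imI ^ 2 - q.imJ ^ 2] := by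
  ext i
  fin_cases i
  · simp [rot, vec, kk]; ring
  · simp [rot, vec, kk]; ring
  · simp [rot, vec, kk]; ring

theorem EE_smooth (τ : ℝ) : ContDiff ℝ ∞ (fun t => (EE τ t).re) ∧
    ContDiff ℝ ∞ (fun t => (EE τ t).imI) ∧ ContDiff ℝ ∞ (fun t => (EE τ t).imJ) ∧
    ContDiff ℝ ∞ (fun t => (EE τ t).imK) := by
  simp only [EE]
  refine ⟨?_, contDiff_const, contDiff_const, ?_⟩
  · exact contDiff_const.mul (Real.contDiff_cos.comp (contDiff_const.mul contDiff_id))
  · exact contDiff_const.mul (Real.contDiff_sin.comp (contDiff_const.mul contDiff_id))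

theorem defm_smooth (τ : ℝ) (b : Sph) : ContDiff ℝ ∞ (fun t => (defm τ b t : E3)) := by
  obtain ⟨h0, h1, h2, h3⟩ := EE_smooth τ
  rw [contDiff_euclidean]
  intro i
  have key : ∀ q : ℝ → ℍ[ℝ], ContDiff ℝ ∞ (fun t => (q t).re) → ContDiff ℝ ∞ (fun t => (q t).imI) →
      ContDiff ℝ ∞ (fun t => (q t).imJ) → ContDiff ℝ ∞ (fun t => (q t).imK) →
      ContDiff ℝ ∞ (fun t => rot (q t) i) := by
    intro q g0 g1 g2 g3
    simp only [rot_eq]
    fin_cases i
    · exact contDiff_const.mul ((g1.mul g3).add (g0.mul g2))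
    · exact contDiff_const.mul ((g2.mul g3).sub (g0.mul g1))
    · exact (((g0.pow 2).add (g3.pow 2)).sub (g1.pow 2)).sub (g2.pow 2)
  refine key (fun t => HH τ b t) ?_ ?_ ?_ ?_
  · simp only [HH, star_pv, Quaternion.re_mul, Quaternion.imI_mul, Quaternion.imJ_mul,
      Quaternion.imK_mul]
    fun_prop
  · simp only [HH, star_pv, Quaternion.re_mul, Quaternion.imI_mul, Quaternion.imJ_mul,
      Quaternion.imK_mul]
    fun_prop
  · simp only [HH, star_pv, Quaternion.re_mul, Quaternion.imI_mul, Quaternion.imJ_mul,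
      Quaternion.imK_mul]
    fun_prop
  · simp only [HH, star_pv, Quaternion.re_mul, Quaternion.imI_mul, Quaternion.imJ_mul,
      Quaternion.imK_mul]
    fun_prop

end

end Pool.Agent.H261R3
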