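import Pool.Agent.H261R3.Pos

set_option autoImplicit false
set_option maxHeartbeats 400000

/-! The doubled family is deformable to a family of points through short curves: part 2. -/

namespace Pool.Agent.H261R3

open Quaternion
open scoped ContDiff

noncomputable section

theorem EE_one (τ : ℝ) : EE τ 1 = EE τ 0 := by
  ext <;> simp [EE]

theorem EE_zero_left (t : ℝ) : EE 0 t = ck (2 * Real.pi * t) := by
  ext <;> simp [EE, ck]

theorem EE_one_left (t : ℝ) : EE 1 t = EE 1 0 := by
  ext <;> simp [EE]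

theorem closed_of_smooth {c : ℝ → Sph} (h : ContDiff ℝ ∞ (fun t => (c t : E3))) (h1 : c 0 = c 1) :
    IsClosedCurve c := by
  refine ⟨h1, 1, fun i => (i : ℝ), fun i j hij => Nat.cast_le.mpr hij, by simp, by simp, ?_⟩
  intro i _
  exact h.contDiffOn

theorem defm_closed (τ : ℝ) (b : Sph) : IsClosedCurve (defm τ b) := by
  refine closed_of_smooth (defm_smooth τ b) ?_
  apply Subtype.ext
  simp only [defm, HH, EE_one]

theorem gam_smooth (b : Sph) : ContDiff ℝ ∞ (fun t => (gam b t : E3)) := by
  rw [contDiff_euclidean]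
  intro i
  simp only [gam, rot_eq, gq_eq]
  fin_cases i
  · simp; fun_prop
  · simp; fun_prop
  · simp; fun_prop

theorem gam_closed (b : Sph) : IsClosedCurve (gam b) := by
  refine closed_of_smooth (gam_smooth b) ?_
  apply Subtype.ext
  simp only [gam]
  rw [gq_zero, gq_one, rot_neg]

theorem ck_sub_int (θ : ℝ) (n : ℤ) : ck (θ - Real.pi * n) = ck θ ∨ ck (θ - Real.pi * n) = - ck θ := by
  rcases Int.even_or_odd' n with ⟨m, rfl | rfl⟩
  · left
    have h : θ - Real.pi * ((2 * m : ℤ) : ℝ) = θ - m * (2 * Real.pi) := by push_cast; ring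
    rw [h]
    simp [ck, Real.cos_sub_int_mul_two_pi, Real.sin_sub_int_mul_two_pi]
  · right
    have h : θ - Real.pi * ((2 * m + 1 : ℤ) : ℝ) = (θ - Real.pi) - m * (2 * Real.pi) := by
      push_cast; ring
    rw [h]
    ext <;> simp [ck, Real.cos_sub_int_mul_two_pi, Real.sin_sub_int_mul_two_pi,
      Real.cos_sub_pi, Real.sin_sub_pi]

theorem defm_start (b : Sph) (t : ℝ) : defm 0 b t = traverse 2 (gam b) t := by
  apply Subtype.ext
  simp only [defm, traverse, gam, HH, gq, EE_zero_left]
  have h : Real.pi * Int.fract (((2 : ℕ) : ℝ) * t) =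
      2 * Real.pi * t - Real.pi * ((⌊((2 : ℕ) : ℝ) * t⌋ : ℤ) : ℝ) := by
    rw [Int.fract]; push_cast; ring
  rw [h]
  rcases ck_sub_int (2 * Real.pi * t) ⌊((2 : ℕ) : ℝ) * t⌋ with h1 | h1
  · rw [h1]
  · rw [h1, mul_neg, neg_mul, rot_neg]

theorem defm_stop (b : Sph) (t : ℝ) : defm 1 b t = defm 1 b 0 := by
  apply Subtype.ext
  simp only [defm, HH]
  rw [EE_one_left]

/-! ### length -/

theorem vec_sub_norm (p q : ℍ[ℝ]) : ‖vec p - vec q‖ ≤ ‖p - q‖ := by
  have h1 : ‖p - q‖ * ‖p - q‖ = (p - q).re ^ 2 + (p - q).imI ^ 2 + (p - q).imJ ^ 2 +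
      (p - q).imK ^ 2 := by
    rw [← Quaternion.normSq_eq_norm_mul_self, Quaternion.normSq_def']
  have h2 : ‖vec p - vec q‖ ^ 2 = (p - q).imI ^ 2 + (p - q).imJ ^ 2 + (p - q).imK ^ 2 := by
    rw [EuclideanSpace.norm_sq_eq, Fin.sum_univ_three]
    simp [vec]
  have h3 : ‖vec p - vec q‖ ^ 2 ≤ ‖p - q‖ ^ 2 := by nlinarith [sq_nonneg (p - q).re]
  exact le_of_sq_le_sq h3 (norm_nonneg _)

theorem rot_sub_norm {p q : ℍ[ℝ]} (hp : ‖p‖ = 1) (hq : ‖q‖ = 1) :
    ‖rot p - rot q‖ ≤ 2 * ‖p - q‖ := by
  refine (vec_sub_norm _ _).trans ?_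
  have h : p * kk * star p - q * kk * star q = (p - q) * kk * star p + q * kk * star (p - q) := by
    rw [star_sub]
    noncomm_ring
  rw [h]
  refine (norm_add_le _ _).trans ?_
  rw [norm_mul, norm_mul, norm_mul, norm_mul, norm_star, norm_star, hp, hq, norm_kk]
  linarith

theorem EE_sub_norm (τ s t : ℝ) : ‖EE τ s - EE τ t‖ ≤ 2 * Real.pi * |s - t| := by
  have h1 : ‖EE τ s - EE τ t‖ * ‖EE τ s - EE τ t‖ =
      Real.cos (Real.pi / 2 * τ) ^ 2 * (2 - 2 * Real.cos (2 * Real.pi * s - 2 * Real.pi * t)) := by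
    rw [← Quaternion.normSq_eq_norm_mul_self, Quaternion.normSq_def']
    have h2 := Real.sin_sq_add_cos_sq (2 * Real.pi * s)
    have h3 := Real.sin_sq_add_cos_sq (2 * Real.pi * t)
    rw [Real.cos_sub]
    simp only [EE, Quaternion.re_sub, Quaternion.imI_sub, Quaternion.imJ_sub, Quaternion.imK_sub]
    linear_combination (Real.cos (Real.pi / 2 * τ)) ^ 2 * (h2 + h3)
  have h4 := Real.one_sub_sq_div_two_le_cos (x := 2 * Real.pi * s - 2 * Real.pi * t)
  have h5 := Real.cos_sq_le_one (Real.pi / 2 * τ)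
  have h6 : (0 : ℝ) ≤ 2 - 2 * Real.cos (2 * Real.pi * s - 2 * Real.pi * t) := by
    linarith [Real.cos_le_one (2 * Real.pi * s - 2 * Real.pi * t)]
  have h7 : ‖EE τ s - EE τ t‖ ^ 2 ≤ (2 * Real.pi * |s - t|) ^ 2 := by
    rw [sq, h1, mul_pow, sq_abs]
    calc Real.cos (Real.pi / 2 * τ) ^ 2 * (2 - 2 * Real.cos (2 * Real.pi * s - 2 * Real.pi * t))
        ≤ 1 * (2 - 2 * Real.cos (2 * Real.pi * s - 2 * Real.pi * t)) := by gcongr
      _ ≤ (2 * Real.pi * s - 2 * Real.pi * t) ^ 2 := by linarith
      _ = (2 * Real.pi) ^ 2 * (s - t) ^ 2 := by ring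
  exact le_of_sq_le_sq h7 (by positivity)

theorem HH_sub_norm (τ : ℝ) (b : Sph) (s t : ℝ) : ‖HH τ b s - HH τ b t‖ = ‖EE τ s - EE τ t‖ := by
  have h : HH τ b s - HH τ b t = pv b * (EE τ s - EE τ t) * star (pv b) := by
    rw [HH, HH]; noncomm_ring
  rw [h, norm_mul, norm_mul, norm_star, norm_pv, one_mul, mul_one]

theorem defm_lip (τ : ℝ) (b : Sph) (s t : ℝ) :
    ‖(defm τ b s : E3) - defm τ b t‖ ≤ 4 * Real.pi * |s - t| := by
  refine (rot_sub_norm (norm_HH τ b s) (norm_HH τ b t)).trans ?_
  rw [HH_sub_norm]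
  have := EE_sub_norm τ s t
  linarith

theorem defm_length (τ : ℝ) (b : Sph) : length (defm τ b) < 13 := by
  have hl : LipschitzWith (Real.toNNReal (4 * Real.pi)) (fun t => (defm τ b t : E3)) := by
    apply LipschitzWith.of_dist_le_mul
    intro s t
    rw [dist_eq_norm, Real.dist_eq, Real.coe_toNNReal _ (by positivity)]
    exact defm_lip τ b s t
  have hd : ∀ t, ‖deriv (fun t => (defm τ b t : E3)) t‖ ≤ 4 * Real.pi := by
    intro t
    have := norm_deriv_le_of_lipschitz hl (x₀ := t)
    rwa [Real.coe_toNNReal _ (by positivity)] at this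
  have h1 : ‖∫ t in (0 : ℝ)..1, ‖deriv (fun t => (defm τ b t : E3)) t‖‖ ≤ 4 * Real.pi * |1 - 0| := by
    apply intervalIntegral.norm_integral_le_of_norm_le_const
    intro t _
    rw [norm_norm]
    exact hd t
  rw [length]
  have h2 := (le_abs_self _).trans h1
  have h3 := Real.pi_lt_d2
  norm_num at h2
  linarith

/-! ### continuity -/

theorem mk_open : IsOpenQuotientMap (Quotient.mk antipodal) := by
  refine ⟨Quotient.mk_surjective, continuous_quotient_mk', ?_⟩
  intro V hV
  rw [← isQuotientMap_quotient_mk'.isOpen_preimage]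
  have h : (Quotient.mk antipodal) ⁻¹' (Quotient.mk antipodal '' V) = V ∪ (fun x => -x) ⁻¹' V := by
    ext x
    constructor
    · rintro ⟨y, hy, hyx⟩
      rcases Quotient.exact hyx with h | h
      · left; rw [← h]; exact hy
      · right
        change -x ∈ V
        rw [← h]; exact hy
    · rintro (h | h)
      · exact ⟨x, h, rfl⟩
      · exact ⟨-x, h, mk_neg x⟩
  exact (show IsOpen ((Quotient.mk antipodal) ⁻¹' (Quotient.mk antipodal '' V)) from by
    rw [h]; exact hV.union (hV.preimage continuous_neg))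

theorem rot_continuous : Continuous rot := by
  have h : rot = fun q => !₂[2 * (q.imI * q.imK + q.re * q.imJ),
    2 * (q.imJ * q.imK - q.re * q.imI), q.re ^ 2 + q.imK ^ 2 - q.imI ^ 2 - q.imJ ^ 2] :=
    funext rot_eq
  rw [h]
  have c0 := Quaternion.continuous_re
  have c1 := Quaternion.continuous_imI
  have c2 := Quaternion.continuous_imJ
  have c3 := Quaternion.continuous_imK
  apply (PiLp.continuous_toLp 2 _).comp
  apply continuous_pi
  intro i
  fin_cases i
  · exact continuous_const.mul ((c1.mul c3).add (c0.mul c2))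
  · exact continuous_const.mul ((c2.mul c3).sub (c0.mul c1))
  · exact (((c0.pow 2).add (c3.pow 2)).sub (c1.pow 2)).sub (c2.pow 2)

theorem EE_continuous : Continuous (fun p : ℝ × ℝ => EE p.1 p.2) := by
  have h : (fun p : ℝ × ℝ => EE p.1 p.2) = fun p => (Quaternion.linearIsometryEquivTuple.symm
      (!₂[Real.cos (Real.pi / 2 * p.1) * Real.cos (2 * Real.pi * p.2),
        Real.sin (Real.pi / 2 * p.1), 0,
        Real.cos (Real.pi / 2 * p.1) * Real.sin (2 * Real.pi * p.2)]) : ℍ[ℝ]) := by
    funext p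
    ext <;> simp [EE]
  rw [h]
  apply (Quaternion.linearIsometryEquivTuple.symm).continuous.comp
  apply (PiLp.continuous_toLp 2 _).comp
  apply continuous_pi
  intro i
  fin_cases i <;> simp <;> fun_prop

theorem defm_continuous :
    Continuous (fun p : unitInterval × Sph × unitInterval => defm p.1 p.2.1 p.2.2) := by
  apply Continuous.subtype_mk
  have h1 : Continuous (fun p : unitInterval × Sph × unitInterval => (((p.1 : ℝ), (p.2.2 : ℝ)) : ℝ × ℝ)) := by
    fun_prop
  have h2 : Continuous (fun p : unitInterval × Sph × unitInterval => EE p.1 p.2.2) := by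
    have h3 := EE_continuous.comp h1
    exact h3
  have h4 : Continuous (fun p : unitInterval × Sph × unitInterval => (p.2.1 : E3)) := by fun_prop
  have h5 : Continuous (fun p : unitInterval × Sph × unitInterval => pv (p.2.1 : E3)) := by
    have h6 := pv_continuous.comp h4
    exact h6
  have h7 := (h5.mul h2).mul h5.star
  have h8 := rot_continuous.comp h7
  exact h8

theorem gam_continuous : Continuous (fun p : Sph × unitInterval => gam p.1 p.2) := by
  apply Continuous.subtype_mk
  have h1 : Continuous (fun p : Sph × unitInterval => ((p.1, (p.2 : ℝ)) : Sph × ℝ)) := by fun_prop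
  have h2 := rot_continuous.comp (gq_continuous.comp h1)
  exact h2

theorem HD_continuous :
    Continuous (fun p : unitInterval × RP2 × unitInterval => HD p.1 p.2.1 p.2.2) := by
  have hq : IsOpenQuotientMap (Prod.map (id : unitInterval → unitInterval)
      (Prod.map (Quotient.mk antipodal) (id : unitInterval → unitInterval))) :=
    IsOpenQuotientMap.id.prodMap (mk_open.prodMap IsOpenQuotientMap.id)
  rw [hq.isQuotientMap.continuous_iff]
  exact defm_continuous

theorem γ_continuous : Continuous (fun p : RP2 × unitInterval => γ p.1 p.2) := by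
  have hq : IsOpenQuotientMap (Prod.map (Quotient.mk antipodal) (id : unitInterval → unitInterval)) :=
    mk_open.prodMap IsOpenQuotientMap.id
  rw [hq.isQuotientMap.continuous_iff]
  exact gam_continuous

theorem γ_family : IsFamily γ := by
  refine ⟨?_, γ_continuous⟩
  intro s
  obtain ⟨b, rfl⟩ := Quotient.mk_surjective s
  exact gam_closed b

theorem doubled_deformable : IsDeformation 13 (fun s => traverse 2 (γ s)) HD := by
  refine { continuous := HD_continuous, closed := ?_, start := ?_, stop := ?_, curve := ?_, short := ?_ }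
  · intro τ s
    obtain ⟨b, rfl⟩ := Quotient.mk_surjective s
    exact (defm_closed τ b).closed
  · intro s t _
    obtain ⟨b, rfl⟩ := Quotient.mk_surjective s
    have := defm_start b t
    rw [HD_mk]
    simp only [Set.Icc.coe_zero]
    exact this
  · intro s t _
    obtain ⟨b, rfl⟩ := Quotient.mk_surjective s
    rw [HD_mk, HD_mk]
    simp only [Set.Icc.coe_one]
    exact defm_stop b t
  · intro τ s
    obtain ⟨b, rfl⟩ := Quotient.mk_surjective s
    exact defm_closed τ b
  · intro τ s
    obtain ⟨b, rfl⟩ := Quotient.mk_surjective s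
    exact defm_length τ b

end

end Pool.Agent.H261R3
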