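import Pool.Agent.Helper82.BorsukUlam

/-! Prisms and subdivisions of mod 2 chains (chains of lists of points, as in
`Helper82.BorsukUlam`). -/

set_option autoImplicit false
set_option linter.unusedSectionVars false

namespace Pool.Agent.H261R3

open Finsupp
open Pool.Agent.Helper82.BorsukUlam

section Algebra

variable {V : Type*}

/-- push forward of chains -/
noncomputable def mp (f : V → V) : Chain V →ₗ[ZMod 2] Chain V :=
  Finsupp.lmapDomain (ZMod 2) (ZMod 2) (List.map f)

theorem mp_single (f : V → V) (l : List V) (c : ZMod 2) :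
    mp f (single l c) = single (l.map f) c := by
  simp [mp]

theorem mp_cone (f : V → V) (v : V) (c : Chain V) : mp f (cone v c) = cone (f v) (mp f c) := by
  induction c using Finsupp.induction_linear with
  | zero => simp
  | add f g hf hg => simp only [map_add, hf, hg]
  | single l b => rw [cone_single, mp_single, mp_single, cone_single, List.map_cons]

theorem mp_bdL (f : V → V) (l : List V) : mp f (bdL l) = bdL (l.map f) := by
  induction l with
  | nil => simp [bdL]
  | cons v l ih =>
    rw [bdL, map_add, mp_single, mp_cone, ih, List.map_cons, bdL]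

theorem mp_bd (f : V → V) (c : Chain V) : mp f (bd c) = bd (mp f c) := by
  induction c using Finsupp.induction_linear with
  | zero => simp
  | add f g hf hg => simp only [map_add, hf, hg]
  | single l a => rw [bd_single, map_smul, mp_bdL, mp_single, bd_single]

/-- the prism between a list and its image -/
noncomputable def prL (f : V → V) : List V → Chain V
  | [] => 0
  | v :: l => cone v (single (f v :: l.map f) 1) + cone v (prL f l)

noncomputable def pr (f : V → V) : Chain V →ₗ[ZMod 2] Chain V :=
  Finsupp.linearCombination (ZMod 2) (prL f)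

theorem pr_single (f : V → V) (l : List V) (a : ZMod 2) : pr f (single l a) = a • prL f l := by
  simp [pr]

theorem pr_cone (f : V → V) (v : V) (c : Chain V) :
    pr f (cone v c) = cone v (cone (f v) (mp f c)) + cone v (pr f c) := by
  induction c using Finsupp.induction_linear with
  | zero => simp
  | add g h hg hh => simp only [map_add, hg, hh]; abel
  | single l a =>
    rw [cone_single, pr_single, pr_single, prL, mp_single, cone_single, cone_single, cone_single,
      smul_add, Finsupp.smul_single, map_smul, smul_eq_mul, mul_one]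

theorem bd_prL (f : V → V) (l : List V) :
    bd (prL f l) = single l 1 + single (l.map f) 1 + pr f (bdL l) := by
  induction l with
  | nil =>
    simp only [prL, map_zero, bdL, List.map_nil, add_zero]
    rw [← Finsupp.single_add]
    have : (1 : ZMod 2) + 1 = 0 := by decide
    rw [this, Finsupp.single_zero]
  | cons v l ih =>
    have h2 : ∀ c : Chain V, c + c = 0 := add_self
    have hv : bdL (v :: l) = single l 1 + cone v (bdL l) := rfl
    have hf : bdL (f v :: l.map f) = single (l.map f) 1 + cone (f v) (bdL (l.map f)) := rfl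
    rw [prL, map_add, bd_cone, bd_cone, ih, bd_single, hv, hf, map_add (pr f), pr_single, pr_cone,
      mp_bdL, one_smul, one_smul]
    simp only [map_add, cone_single, List.map_cons]
    have e := h2 (single (v :: l.map f) (1 : ZMod 2))
    generalize hA : single (f v :: l.map f) (1 : ZMod 2) = A at *
    generalize hB : single (v :: l.map f) (1 : ZMod 2) = B at *
    generalize hC : cone v ((cone (f v)) (bdL (l.map f))) = C at *
    generalize hD : prL f l = D at *
    generalize hE : single (v :: l) (1 : ZMod 2) = E at *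
    generalize hF : cone v (pr f (bdL l)) = F at *
    calc A + (B + C) + (D + (E + B + F)) = E + A + (D + (C + F)) + (B + B) := by abel
      _ = E + A + (D + (C + F)) := by rw [e, add_zero]

theorem bd_pr (f : V → V) (c : Chain V) : bd (pr f c) = c + mp f c + pr f (bd c) := by
  induction c using Finsupp.induction_linear with
  | zero => simp
  | add g h hg hh => simp only [map_add, hg, hh]; abel
  | single l a =>
    rw [pr_single, map_smul, bd_prL, bd_single, map_smul, mp_single, smul_add, smul_add,
      Finsupp.smul_single, Finsupp.smul_single, smul_eq_mul, mul_one]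

theorem mp_prL (f g : V → V) (h : ∀ v, g (f v) = f (g v)) (l : List V) :
    mp g (prL f l) = prL f (l.map g) := by
  induction l with
  | nil => simp [prL]
  | cons v l ih =>
    rw [prL, map_add, mp_cone, mp_cone, ih, mp_single, List.map_cons, List.map_cons, prL, h]
    congr 4
    rw [List.map_map, List.map_map]
    congr 1
    funext x
    exact h x

theorem mp_pr (f g : V → V) (h : ∀ v, g (f v) = f (g v)) (c : Chain V) :
    mp g (pr f c) = pr f (mp g c) := by
  induction c using Finsupp.induction_linear with
  | zero => simp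
  | add a b ha hb => simp only [map_add, ha, hb]
  | single l a =>
    rw [pr_single, map_smul, mp_prL f g h, mp_single, pr_single]

theorem mp_mp_comm (f g : V → V) (h : ∀ v, g (f v) = f (g v)) (c : Chain V) :
    mp g (mp f c) = mp f (mp g c) := by
  induction c using Finsupp.induction_linear with
  | zero => simp
  | add a b ha hb => simp only [map_add, ha, hb]
  | single l a =>
    rw [mp_single, mp_single, mp_single, mp_single, List.map_map, List.map_map]
    congr 1
    apply List.map_congr_left
    intro x _
    exact h x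

end Algebra

section Linear

variable {V : Type*} [AddCommGroup V] [Module ℝ V]

theorem bary_map (T : V →ₗ[ℝ] V) (l : List V) : bary (l.map T) = T (bary l) := by
  have : (l.map T).sum = T l.sum := by
    induction l with
    | nil => simp
    | cons x t ih => simp [ih]
  rw [bary, bary, this, List.length_map, map_smul]

theorem sub_mp (T : V →ₗ[ℝ] V) (n : ℕ) (c : Chain V) : mp T (sub n c) = sub n (mp T c) := by
  induction n generalizing c with
  | zero => rfl
  | succ n ih =>
    induction c using Finsupp.induction_linear with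
    | zero => simp
    | add f g hf hg => simp only [map_add, hf, hg]
    | single l a =>
      rw [sub_succ_single, map_smul, mp_cone, ih, mp_bdL, mp_single, sub_succ_single, bary_map]

theorem mp_iter (T : V →ₗ[ℝ] V) (r k : ℕ) (c : Chain V) :
    mp T ((sub k)^[r] c) = (sub k)^[r] (mp T c) := by
  induction r generalizing c with
  | zero => rfl
  | succ r ih => rw [Function.iterate_succ_apply, ih, sub_mp, Function.iterate_succ_apply]

end Linear

section Support

variable {V : Type*} [NormedAddCommGroup V] [NormedSpace ℝ V]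

/-- lists of `n` points lying in a convex subset of `R` -/
def PS (n : ℕ) (R : Set V) (l : List V) : Prop :=
  l.length = n ∧ ∃ C : Set V, Convex ℝ C ∧ C ⊆ R ∧ ∀ u ∈ l, u ∈ C

theorem PS_mono {n : ℕ} {R R' : Set V} (h : R ⊆ R') {c : Chain V} (hc : c ∈ S (PS n R)) :
    c ∈ S (PS n R') :=
  S_mono (fun _ ⟨h1, C, h2, h3, h4⟩ => ⟨h1, C, h2, h3.trans h, h4⟩) hc

theorem prL_mem {e : V} {C' : Set V} (l : List V) (h1 : ∀ u ∈ l, u ∈ C') (h2 : ∀ u ∈ l, u + e ∈ C') :
    prL (fun x => x + e) l ∈ S (fun l' : List V => l'.length = l.length + 1 ∧ ∀ u ∈ l', u ∈ C') := by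
  induction l with
  | nil => exact Submodule.zero_mem _
  | cons v l ih =>
    rw [prL]
    refine Submodule.add_mem _ ?_ ?_
    · rw [cone_single]
      refine single_mem_S ⟨by simp, ?_⟩ 1
      intro u hu
      rcases List.mem_cons.mp hu with rfl | hu
      · exact h1 _ (by simp)
      rcases List.mem_cons.mp hu with rfl | hu
      · exact h2 _ (by simp)
      obtain ⟨w, hw, rfl⟩ := List.mem_map.mp hu
      exact h2 w (by simp [hw])
    · refine cone_mem_S v ?_ (ih (fun u hu => h1 u (by simp [hu])) (fun u hu => h2 u (by simp [hu])))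
      rintro l' ⟨k1, k2⟩
      refine ⟨by simp [k1], ?_⟩
      intro u hu
      rcases List.mem_cons.mp hu with rfl | hu
      · exact h1 _ (by simp)
      · exact k2 u hu

theorem pr_mem {n : ℕ} {R R' : Set V} {e : V}
    (h : ∀ x ∈ R, ∀ s : ℝ, 0 ≤ s → s ≤ 1 → x + s • e ∈ R') {c : Chain V} (hc : c ∈ S (PS n R)) :
    pr (fun x => x + e) c ∈ S (PS (n + 1) R') := by
  refine lin_mem (pr (fun x => x + e)) (fun l hl => ?_) hc
  rw [pr_single, one_smul]
  obtain ⟨hlen, C, hC, hCR, hlC⟩ := hl
  set C' : Set V := (fun p : V × ℝ => p.1 + p.2 • e) '' (C ×ˢ Set.Icc (0 : ℝ) 1) with hC'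
  have hconv : Convex ℝ C' := by
    have hl : IsLinearMap ℝ (fun p : V × ℝ => p.1 + p.2 • e) := by
      constructor
      · intro p q
        simp only [Prod.fst_add, Prod.snd_add, add_smul]
        abel
      · intro c p
        simp only [Prod.smul_fst, Prod.smul_snd, smul_add, smul_smul, smul_eq_mul]
    exact (hC.prod (convex_Icc 0 1)).is_linear_image hl
  refine S_mono ?_ (prL_mem (C' := C') l ?_ ?_)
  · rintro l' ⟨k1, k2⟩
    refine ⟨by omega, C', hconv, ?_, k2⟩
    rintro _ ⟨⟨x, s⟩, ⟨hx, hs⟩, rfl⟩
    exact h x (hCR hx) s hs.1 hs.2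
  · intro u hu
    exact ⟨(u, 0), ⟨hlC u hu, by simp⟩, by simp⟩
  · intro u hu
    exact ⟨(u, 1), ⟨hlC u hu, by simp⟩, by simp⟩

/-- translates -/
theorem mp_mem {n : ℕ} {R R' : Set V} {e : V}
    (h : ∀ x ∈ R, x + e ∈ R') {c : Chain V} (hc : c ∈ S (PS n R)) :
    mp (fun x => x + e) c ∈ S (PS n R') := by
  refine lin_mem (mp (fun x => x + e)) (fun l hl => ?_) hc
  rw [mp_single]
  obtain ⟨hlen, C, hC, hCR, hlC⟩ := hl
  refine single_mem_S ⟨by simp [hlen], (fun x => x + e) '' C, ?_, ?_, ?_⟩ 1
  · have := hC.translate e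
    simpa [add_comm] using this
  · rintro _ ⟨x, hx, rfl⟩
    exact h x (hCR hx)
  · intro u hu
    obtain ⟨w, hw, rfl⟩ := List.mem_map.mp hu
    exact ⟨w, hlC w hw, rfl⟩

/-- lists of `n` points of `R` with mutual distances less than `δ` -/
def Sm (n : ℕ) (δ : ℝ) (R : Set V) (l : List V) : Prop :=
  l.length = n ∧ (∀ u ∈ l, u ∈ R) ∧ ∀ u ∈ l, ∀ v ∈ l, dist u v < δ

theorem iter_mem {n r : ℕ} {R : Set V} {D δ : ℝ} (hD : 0 ≤ D)
    (hR : ∀ x ∈ R, ∀ y ∈ R, ‖x - y‖ ≤ D)
    (hr : ((n : ℝ) / (n + 1)) ^ r * D < δ) {c : Chain V} (hc : c ∈ S (PS n R)) :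
    (sub n)^[r] c ∈ S (Sm n δ R) := by
  have h1 : c ∈ S (fun l => ∃ C ∈ {C : Set V | Convex ℝ C ∧ C ⊆ R}, Good n D C l) := by
    refine S_mono ?_ hc
    rintro l ⟨k1, C, k2, k3, k4⟩
    exact ⟨C, ⟨k2, k3⟩, k1, k4, fun u hu v hv => hR u (k3 (k4 u hu)) v (k3 (k4 v hv))⟩
  refine S_mono ?_ (sub_iter_good' n r D hD _ (fun C hC => hC.1) c h1)
  rintro l ⟨C, ⟨-, hC⟩, k1, k2, k3⟩
  refine ⟨k1, fun u hu => hC (k2 u hu), fun u hu v hv => ?_⟩
  rw [dist_eq_norm]
  exact lt_of_le_of_lt (k3 u hu v hv) hr

end Support

section Lists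

variable {V : Type*}

theorem al_cons (s : V → ZMod 2) (x : V) (t : List V) : al s (x :: t) = s x * W s (x :: t) := rfl

theorem sort_pairwise (a : V → ℕ) (l : List V) :
    (l.insertionSort (fun x y => a x ≤ a y)).Pairwise (fun x y => a x ≤ a y) := by
  have : Std.Total (fun x y : V => a x ≤ a y) := ⟨fun x y => le_total (a x) (a y)⟩
  have : IsTrans V (fun x y : V => a x ≤ a y) := ⟨fun x y z => le_trans⟩
  exact List.pairwise_insertionSort _ l

/-- too few labels -/
theorem W_small (a : V → ℕ) (s : V → ZMod 2) (A : Finset ℕ) (l : List V)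
    (hA : ∀ u ∈ l, a u ∈ A) (hcard : A.card < l.length)
    (hs : ∀ u ∈ l, ∀ v ∈ l, a u = a v → s u = s v)
    (hsort : l.Pairwise (fun x y => a x ≤ a y)) : W s l = 0 := by
  by_contra hW
  have hp := pairwise_of_W_ne a s l hs hsort hW
  have hnd : (l.map a).Nodup := by
    rw [List.Nodup, List.pairwise_map]
    exact hp.imp (fun h => ne_of_lt h)
  have hsub : (l.map a).toFinset ⊆ A := by
    intro x hx
    rw [List.mem_toFinset, List.mem_map] at hx
    obtain ⟨v, hv, rfl⟩ := hx
    exact hA v hv
  have hc := Finset.card_le_card hsub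
  rw [List.toFinset_card_of_nodup hnd, List.length_map] at hc
  omega

theorem al_small (a : V → ℕ) (s : V → ZMod 2) (A : Finset ℕ) (l : List V)
    (hA : ∀ u ∈ l, a u ∈ A) (hcard : A.card < l.length)
    (hs : ∀ u ∈ l, ∀ v ∈ l, a u = a v → s u = s v)
    (hsort : l.Pairwise (fun x y => a x ≤ a y)) : al s l = 0 := by
  cases l with
  | nil => simp at hcard
  | cons x t => rw [al_cons, W_small a s A _ hA hcard hs hsort, mul_zero]

/-- the first label is the smallest one -/
theorem al_first (a : V → ℕ) (s : V → ZMod 2) (A : Finset ℕ) (j : ℕ) (σ : ZMod 2) (l : List V)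
    (hne : l ≠ []) (hA : ∀ u ∈ l, a u ∈ A) (hcard : A.card ≤ l.length) (hj : j ∈ A)
    (hmin : ∀ i ∈ A, j ≤ i)
    (hσ : ∀ u ∈ l, a u = j → s u = σ)
    (hs : ∀ u ∈ l, ∀ v ∈ l, a u = a v → s u = s v)
    (hsort : l.Pairwise (fun x y => a x ≤ a y)) : al s l = σ * W s l := by
  cases l with
  | nil => exact absurd rfl hne
  | cons x t =>
    rw [al_cons]
    by_cases hW : W s (x :: t) = 0
    · rw [hW, mul_zero, mul_zero]
    · have hp := pairwise_of_W_ne a s _ hs hsort hW
      have hnd : ((x :: t).map a).Nodup := by
        rw [List.Nodup, List.pairwise_map]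
        exact hp.imp (fun h => ne_of_lt h)
      have hsub : ((x :: t).map a).toFinset ⊆ A := by
        intro y hy
        rw [List.mem_toFinset, List.mem_map] at hy
        obtain ⟨v, hv, rfl⟩ := hy
        exact hA v hv
      have heq : ((x :: t).map a).toFinset = A := by
        apply Finset.eq_of_subset_of_card_le hsub
        rw [List.toFinset_card_of_nodup hnd, List.length_map]
        exact hcard
      have hjm : j ∈ ((x :: t).map a).toFinset := heq ▸ hj
      rw [List.mem_toFinset, List.mem_map] at hjm
      obtain ⟨v, hv, hvj⟩ := hjm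
      have h1 : a x ≤ a v := by
        rcases List.mem_cons.mp hv with rfl | hv
        · exact le_rfl
        · exact List.rel_of_pairwise_cons hsort hv
      have h2 : j ≤ a x := hmin _ (hA x (by simp))
      have h3 : a x = j := by omega
      rw [hσ x (by simp) h3]

theorem W_map (s : V → ZMod 2) (f : V → V) (l : List V) (hs : ∀ u ∈ l, s (f u) = s u) :
    W s (l.map f) = W s l := by
  induction l with
  | nil => rfl
  | cons x l ih =>
    cases l with
    | nil => rfl
    | cons y t =>
      have h1 := ih (fun v hv => hs v (List.mem_cons_of_mem _ hv))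
      simp only [List.map_cons, W] at h1 ⊢
      rw [h1, hs x (by simp), hs y (by simp)]

theorem al_map (s : V → ZMod 2) (f : V → V) (l : List V) (hs : ∀ u ∈ l, s (f u) = s u) :
    al s (l.map f) = al s l := by
  cases l with
  | nil => rfl
  | cons x t =>
    have := W_map s f (x :: t) hs
    simp only [List.map_cons] at this ⊢
    rw [al_cons, al_cons, this, hs x (by simp)]

end Lists

end Pool.Agent.H261R3
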